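import Pool.Agent.LibFS95.Defs

/-!
# The fusion system of a finite group on a Sylow subgroup: definition and Sylow lemmas
-/

set_option autoImplicit false

noncomputable section

namespace Pool.FS95

open MulAction

section syl

variable {B : Type*} [Group B] [Finite B]

theorem card_sup_relIndex (A N : Subgroup B) [N.Normal] : A.relIndex (A ⊔ N) = A.relIndex N := by
  have h1 : Nat.card A * A.relIndex (A ⊔ N) = Nat.card (A ⊔ N : Subgroup B) := by
    have := Subgroup.relIndex_mul_relIndex (⊥ : Subgroup B) A (A ⊔ N) bot_le le_sup_left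
    rwa [Subgroup.relIndex_bot_left, Subgroup.relIndex_bot_left] at this
  have h2 : Nat.card N * N.relIndex A = Nat.card (A ⊔ N : Subgroup B) := by
    have := Subgroup.relIndex_mul_relIndex (⊥ : Subgroup B) N (A ⊔ N) bot_le le_sup_right
    rwa [Subgroup.relIndex_bot_left, Subgroup.relIndex_bot_left, Subgroup.relIndex_sup_right] at this
  have h3 : Nat.card (A ⊓ N : Subgroup B) * N.relIndex A = Nat.card A := by
    have := Subgroup.relIndex_mul_relIndex (⊥ : Subgroup B) (A ⊓ N) A bot_le inf_le_left
    rwa [Subgroup.relIndex_bot_left, Subgroup.relIndex_bot_left, Subgroup.inf_relIndex_left] at this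
  have h4 : Nat.card (A ⊓ N : Subgroup B) * A.relIndex N = Nat.card N := by
    have := Subgroup.relIndex_mul_relIndex (⊥ : Subgroup B) (A ⊓ N) N bot_le inf_le_right
    rwa [Subgroup.relIndex_bot_left, Subgroup.relIndex_bot_left, Subgroup.inf_relIndex_right] at this
  have h5 : 0 < Nat.card A := Nat.card_pos
  refine Nat.eq_of_mul_eq_mul_left h5 ?_
  rw [h1, ← h2, ← h4, ← h3]
  ring

theorem not_dvd_relIndex_normal {ℓ : ℕ} (A N : Subgroup B) [N.Normal] (h : ¬ ℓ ∣ A.index) :
    ¬ ℓ ∣ A.relIndex N := by
  intro h1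
  rw [← card_sup_relIndex] at h1
  exact h (h1.trans (Subgroup.relIndex_dvd_index_of_le le_sup_left))

end syl

end Pool.FS95
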