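import Pool.Agent.LibFG56.A

/-!
# The fusion system of a finite group on a Sylow subgroup is saturated
-/

set_option autoImplicit false

noncomputable section

namespace Pool.FS95

open MulAction

section defs

variable {G : Type} [Group G] (S : Subgroup G)

/-- `F_S(G)`: the morphisms are the conjugations by elements of `G`. -/
def grpFS : FusionSystem S where
  Hom P Q := {φ | ∃ g : G, ∀ x : P, ((φ x : S) : G) = g * ((x : S) : G) * g⁻¹}
  inj := by
    rintro P Q φ ⟨g, hg⟩ x y hxy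
    have h1 : g * ((x : S) : G) * g⁻¹ = g * ((y : S) : G) * g⁻¹ := by rw [← hg, ← hg, hxy]
    exact Subtype.ext (Subtype.ext (by simpa using h1))
  conj_mem P Q s φ h := ⟨s, fun x => by rw [h x]; rfl⟩
  comp_mem := by
    rintro P Q R φ ψ ⟨g, hg⟩ ⟨h, hh⟩
    refine ⟨h * g, fun x => ?_⟩
    rw [MonoidHom.comp_apply, hh, hg]
    group
  factor := by
    rintro P Q φ ⟨g, hg⟩ R e he
    have h1 : ∀ x : P, ((e x : S) : G) = g * ((x : S) : G) * g⁻¹ := fun x => by rw [he x, hg x]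
    refine ⟨⟨g, h1⟩, ⟨g⁻¹, fun x => ?_⟩⟩
    have h2 := h1 (e.symm x)
    rw [MulEquiv.apply_symm_apply] at h2
    change ((e.symm x : S) : G) = _
    rw [h2]
    group

variable {S}

theorem mem_grpFS_hom {P Q : Subgroup S} {φ : P →* Q} :
    φ ∈ (grpFS S).Hom P Q ↔ ∃ g : G, ∀ x : P, ((φ x : S) : G) = g * ((x : S) : G) * g⁻¹ := Iff.rfl

/-- the subgroup of `G` -/
def upG (P : Subgroup S) : Subgroup G := P.map S.subtype

theorem mem_up {P : Subgroup S} {g : G} : g ∈ upG P ↔ ∃ h : g ∈ S, (⟨g, h⟩ : S) ∈ P := by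
  constructor
  · rintro ⟨x, hx, rfl⟩
    exact ⟨x.2, hx⟩
  · rintro ⟨h, hx⟩
    exact ⟨_, hx, rfl⟩

theorem coe_mem_up {P : Subgroup S} {x : S} : (x : G) ∈ upG P ↔ x ∈ P :=
  ⟨fun h => (mem_up.1 h).2, fun h => mem_up.2 ⟨x.2, h⟩⟩

/-- the normalizer in `G` -/
def NG (P : Subgroup S) : Subgroup G := Subgroup.normalizer (upG P : Set G)

/-- the centralizer in `G` -/
def CG (P : Subgroup S) : Subgroup G := Subgroup.centralizer (upG P : Set G)

theorem mem_NG {P : Subgroup S} {g : G} : g ∈ NG P ↔ ∀ x : G, x ∈ upG P ↔ g * x * g⁻¹ ∈ upG P :=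
  Subgroup.mem_normalizer_iff

theorem mem_CG {P : Subgroup S} {g : G} : g ∈ CG P ↔ ∀ x ∈ upG P, x * g = g * x :=
  Subgroup.mem_centralizer_iff

theorem map_normalizer (P : Subgroup S) :
    (Subgroup.normalizer (P : Set S)).map S.subtype = NG P ⊓ S := by
  ext g
  constructor
  · rintro ⟨s, hs, rfl⟩
    refine ⟨mem_NG.2 fun x => ?_, s.2⟩
    have h1 := Subgroup.mem_normalizer_iff.1 hs
    constructor
    · intro hx
      obtain ⟨hxS, hx⟩ := mem_up.1 hx
      exact coe_mem_up.2 ((h1 ⟨x, hxS⟩).1 hx)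
    · intro hx
      obtain ⟨hxS, hx⟩ := mem_up.1 hx
      have h2 : x ∈ S := by
        have := S.mul_mem (S.mul_mem (S.inv_mem s.2) hxS) s.2
        have h3 : (s : G)⁻¹ * ((s : G) * x * (s : G)⁻¹) * (s : G) = x := by group
        exact h3 ▸ this
      refine mem_up.2 ⟨h2, (h1 ⟨x, h2⟩).2 ?_⟩
      exact hx
  · rintro ⟨h1, h2⟩
    refine ⟨⟨g, h2⟩, Subgroup.mem_normalizer_iff.2 fun x => ?_, rfl⟩
    have h3 := mem_NG.1 h1 x
    exact ⟨fun hx => coe_mem_up.1 (h3.1 (coe_mem_up.2 hx)),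
      fun hx => coe_mem_up.1 (h3.2 (coe_mem_up.2 hx))⟩

theorem map_centralizer (P : Subgroup S) :
    (Subgroup.centralizer (P : Set S)).map S.subtype = CG P ⊓ S := by
  ext g
  constructor
  · rintro ⟨s, hs, rfl⟩
    refine ⟨mem_CG.2 fun x hx => ?_, s.2⟩
    obtain ⟨hxS, hx⟩ := mem_up.1 hx
    exact congrArg Subtype.val (Subgroup.mem_centralizer_iff.1 hs ⟨x, hxS⟩ hx)
  · rintro ⟨h1, h2⟩
    refine ⟨⟨g, h2⟩, Subgroup.mem_centralizer_iff.2 fun x hx => ?_, rfl⟩
    exact Subtype.ext (mem_CG.1 h1 x (coe_mem_up.2 hx))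

theorem card_normalizer (P : Subgroup S) :
    Nat.card (Subgroup.normalizer (P : Set S)) = Nat.card (NG P ⊓ S : Subgroup G) := by
  rw [← map_normalizer]
  exact (Nat.card_congr (Subgroup.equivMapOfInjective _ _ S.subtype_injective).toEquiv)

theorem card_centralizer (P : Subgroup S) :
    Nat.card (Subgroup.centralizer (P : Set S)) = Nat.card (CG P ⊓ S : Subgroup G) := by
  rw [← map_centralizer]
  exact (Nat.card_congr (Subgroup.equivMapOfInjective _ _ S.subtype_injective).toEquiv)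

theorem conj_iff {P Q : Subgroup S} : (grpFS S).Conj P Q ↔ ∃ g : G, cj g (upG P) = upG Q := by
  constructor
  · rintro ⟨e, g, hg⟩
    refine ⟨g, ?_⟩
    ext x
    rw [mem_cj]
    constructor
    · rintro ⟨y, hy, rfl⟩
      obtain ⟨hyS, hy⟩ := mem_up.1 hy
      have h1 := hg ⟨⟨y, hyS⟩, hy⟩
      have h2 : g * y * g⁻¹ = ((e ⟨⟨y, hyS⟩, hy⟩ : S) : G) := h1.symm
      rw [h2]
      exact coe_mem_up.2 (e ⟨⟨y, hyS⟩, hy⟩).2
    · intro hx
      obtain ⟨hxS, hx⟩ := mem_up.1 hx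
      refine ⟨((e.symm ⟨⟨x, hxS⟩, hx⟩ : S) : G), coe_mem_up.2 (e.symm _).2, ?_⟩
      have h1 := hg (e.symm ⟨⟨x, hxS⟩, hx⟩)
      have h2 : e.toMonoidHom (e.symm ⟨⟨x, hxS⟩, hx⟩) = ⟨⟨x, hxS⟩, hx⟩ :=
        MulEquiv.apply_symm_apply e _
      rw [h2] at h1
      exact h1.symm
  · rintro ⟨g, hg⟩
    have h1 : ∀ x : P, g * ((x : S) : G) * g⁻¹ ∈ upG Q := fun x => by
      rw [← hg, mem_cj]
      exact ⟨_, coe_mem_up.2 x.2, rfl⟩
    have h2 : ∀ x : Q, g⁻¹ * ((x : S) : G) * g ∈ upG P := fun x => by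
      have h3 : ((x : S) : G) ∈ cj g (upG P) := by
        rw [hg]
        exact coe_mem_up.2 x.2
      obtain ⟨y, hy, h4⟩ := mem_cj.1 h3
      have h5 : g⁻¹ * ((x : S) : G) * g = y := by
        rw [← h4]
        group
      rw [h5]
      exact hy
    let e : P ≃* Q :=
      { toFun := fun x => ⟨⟨_, (mem_up.1 (h1 x)).1⟩, (mem_up.1 (h1 x)).2⟩
        invFun := fun x => ⟨⟨_, (mem_up.1 (h2 x)).1⟩, (mem_up.1 (h2 x)).2⟩
        left_inv := fun x => by
          apply Subtype.ext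
          apply Subtype.ext
          change g⁻¹ * (g * ((x : S) : G) * g⁻¹) * g = _
          group
        right_inv := fun x => by
          apply Subtype.ext
          apply Subtype.ext
          change g * (g⁻¹ * ((x : S) : G) * g) * g⁻¹ = _
          group
        map_mul' := fun x y => by
          apply Subtype.ext
          apply Subtype.ext
          change g * (((x : S) : G) * ((y : S) : G)) * g⁻¹ =
            (g * ((x : S) : G) * g⁻¹) * (g * ((y : S) : G) * g⁻¹)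
          group }
    exact ⟨e, g, fun x => rfl⟩

theorem NG_cj {P Q : Subgroup S} {g : G} (h : cj g (upG P) = upG Q) : cj g (NG P) = NG Q := by
  have key : ∀ (P Q : Subgroup S) (g : G), cj g (upG P) = upG Q → cj g (NG P) ≤ NG Q := by
    intro P Q g h z hz
    obtain ⟨x, hx, rfl⟩ := mem_cj.1 hz
    refine mem_NG.2 fun y => ?_
    rw [← h, mem_cj, mem_cj]
    have h1 := mem_NG.1 hx
    constructor
    · rintro ⟨u, hu, rfl⟩
      exact ⟨x * u * x⁻¹, (h1 u).1 hu, by group⟩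
    · rintro ⟨u, hu, h2⟩
      refine ⟨g⁻¹ * y * g, (h1 _).2 ?_, by group⟩
      have h3 : x * (g⁻¹ * y * g) * x⁻¹ = u := by
        have h4 : u = g⁻¹ * (g * x * g⁻¹ * y * (g * x * g⁻¹)⁻¹) * g := by rw [← h2]; group
        rw [h4]
        group
      rw [h3]
      exact hu
  refine le_antisymm (key P Q g h) ?_
  have h1 : cj g⁻¹ (upG Q) = upG P := by rw [← h, ← cj_mul, inv_mul_cancel, cj_one]
  have h2 := cj_mono g (key Q P g⁻¹ h1)
  rwa [← cj_mul, mul_inv_cancel, cj_one] at h2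

theorem CG_cj {P Q : Subgroup S} {g : G} (h : cj g (upG P) = upG Q) : cj g (CG P) = CG Q := by
  have key : ∀ (P Q : Subgroup S) (g : G), cj g (upG P) = upG Q → cj g (CG P) ≤ CG Q := by
    intro P Q g h z hz
    obtain ⟨x, hx, rfl⟩ := mem_cj.1 hz
    refine mem_CG.2 fun y hy => ?_
    rw [← h, mem_cj] at hy
    obtain ⟨u, hu, rfl⟩ := hy
    have h1 := mem_CG.1 hx u hu
    calc g * u * g⁻¹ * (g * x * g⁻¹) = g * (u * x) * g⁻¹ := by group
      _ = g * (x * u) * g⁻¹ := by rw [h1]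
      _ = g * x * g⁻¹ * (g * u * g⁻¹) := by group
  refine le_antisymm (key P Q g h) ?_
  have h1 : cj g⁻¹ (upG Q) = upG P := by rw [← h, ← cj_mul, inv_mul_cancel, cj_one]
  have h2 := cj_mono g (key Q P g⁻¹ h1)
  rwa [← cj_mul, mul_inv_cancel, cj_one] at h2

theorem card_cj (g : G) (X : Subgroup G) : Nat.card (cj g X) = Nat.card X :=
  (Nat.card_congr (Subgroup.equivMapOfInjective _ _ (MulAut.conj g).injective).toEquiv).symm

theorem relIndex_cj (g : G) (X Y : Subgroup G) : (cj g X).relIndex (cj g Y) = X.relIndex Y :=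
  Subgroup.relIndex_map_map_of_injective _ _ (MulAut.conj g).injective

theorem up_le (P : Subgroup S) : upG P ≤ S := Subgroup.map_subtype_le P

theorem exists_up {X : Subgroup G} (h : X ≤ S) : ∃ Q : Subgroup S, upG Q = X :=
  ⟨X.subgroupOf S, Subgroup.map_subgroupOf_eq_of_le h⟩

theorem CG_le_NG (P : Subgroup S) : CG P ≤ NG P := by
  intro g hg
  refine mem_NG.2 fun x => ?_
  constructor
  · intro hx
    have h1 := mem_CG.1 hg x hx
    have h2 : g * x * g⁻¹ = x := by rw [← h1]; group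
    rwa [h2]
  · intro hx
    have h1 := mem_CG.1 hg _ hx
    have h2 : g * x * g⁻¹ = x := by
      have h3 : g * x * g⁻¹ * g = g * (g * x * g⁻¹) := h1
      have h4 : g * x = g * (g * x * g⁻¹) := by
        rw [← h3]
        group
      exact (mul_left_cancel h4).symm
    rwa [h2] at hx

theorem up_le_NG (P : Subgroup S) : upG P ≤ NG P := Subgroup.le_normalizer

theorem CG_normal (P : Subgroup S) : ((CG P).subgroupOf (NG P)).Normal := by
  constructor
  rintro ⟨x, hx⟩ h1 ⟨g, hg⟩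
  rw [Subgroup.mem_subgroupOf] at h1 ⊢
  change g * x * g⁻¹ ∈ CG P
  have h1 : x ∈ CG P := h1
  have h2 := CG_cj (P := P) (Q := P) (g := g) (by
    ext z
    rw [mem_cj]
    constructor
    · rintro ⟨y, hy, rfl⟩
      exact (mem_NG.1 hg y).1 hy
    · intro hz
      refine ⟨g⁻¹ * z * g, (mem_NG.1 hg _).2 ?_, by group⟩
      have h3 : g * (g⁻¹ * z * g) * g⁻¹ = z := by group
      rwa [h3])
  rw [← h2]
  exact mem_cj.2 ⟨x, h1, rfl⟩

end defs

end Pool.FS95
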