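import Pool.Agent.LibFG56.B

/-!
# The fusion system of a finite group on a Sylow subgroup is saturated
-/

set_option autoImplicit false
set_option linter.unusedSectionVars false

noncomputable section

namespace Pool.FS95

open MulAction

section sylow

variable {ℓ : ℕ} [hℓ : Fact ℓ.Prime]

theorem exists_cj_le {B : Type*} [Group B] [Finite B] {A X : Subgroup B} (hA : IsPGroup ℓ A)
    (hA' : ¬ ℓ ∣ A.index) (hX : IsPGroup ℓ X) : ∃ b : B, cj b X ≤ A := by
  obtain ⟨P, hP⟩ := hX.exists_le_sylow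
  obtain ⟨b, hb⟩ := exists_smul_eq B P (hA.toSylow hA')
  refine ⟨b, ?_⟩
  intro z hz
  obtain ⟨x, hx, rfl⟩ := mem_cj.1 hz
  have h1 : (b * x * b⁻¹) ∈ (b • P : Sylow ℓ B) := by
    change b * x * b⁻¹ ∈ ((b • P : Sylow ℓ B) : Subgroup B)
    rw [Sylow.coe_subgroup_smul]
    exact (Subgroup.smul_mem_pointwise_smul x (MulAut.conj b) (P : Subgroup B) (hP hx))
  rw [hb] at h1
  exact h1

/-- the form in a subgroup -/
theorem exists_cj_le' {G : Type*} [Group G] [Finite G] {B A X : Subgroup G} (hA : IsPGroup ℓ A)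
    (hA' : ¬ ℓ ∣ A.relIndex B) (hX : IsPGroup ℓ X) (hXB : X ≤ B) :
    ∃ b ∈ B, cj b X ≤ A := by
  have h1 : IsPGroup ℓ (A.subgroupOf B) := hA.comap_of_injective _ B.subtype_injective
  have h2 : IsPGroup ℓ (X.subgroupOf B) := hX.comap_of_injective _ B.subtype_injective
  obtain ⟨b, hb⟩ := exists_cj_le h1 hA' h2
  refine ⟨b, b.2, fun z hz => ?_⟩
  obtain ⟨x, hx, rfl⟩ := mem_cj.1 hz
  exact hb (mem_cj.2 ⟨⟨x, hXB hx⟩, hx, rfl⟩)

theorem card_mul_relIndex {G : Type*} [Group G] {A B : Subgroup G} (hAB : A ≤ B) :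
    Nat.card A * A.relIndex B = Nat.card B := by
  have := Subgroup.relIndex_mul_relIndex (⊥ : Subgroup G) A B bot_le hAB
  rwa [Subgroup.relIndex_bot_left, Subgroup.relIndex_bot_left] at this

theorem card_le_of_sylow {G : Type*} [Group G] [Finite G] {A B A' B' : Subgroup G}
    (hA : IsPGroup ℓ A) (hAB : A ≤ B) (hAB' : A' ≤ B') (hA' : ¬ ℓ ∣ A'.relIndex B')
    (hc : Nat.card B = Nat.card B') : Nat.card A ≤ Nat.card A' := by
  obtain ⟨n, hn⟩ := IsPGroup.iff_card.1 hA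
  have h1 : Nat.card A ∣ Nat.card A' * A'.relIndex B' := by
    rw [card_mul_relIndex hAB', ← hc]
    exact ⟨_, (card_mul_relIndex hAB).symm⟩
  have h2 : Nat.Coprime (Nat.card A) (A'.relIndex B') := by
    rw [hn]
    exact Nat.Coprime.pow_left _ ((Nat.Prime.coprime_iff_not_dvd hℓ.out).2 hA')
  exact Nat.le_of_dvd Nat.card_pos (h2.dvd_of_dvd_mul_right h1)

theorem not_dvd_of_card_le {G : Type*} [Group G] [Finite G] {A B A' B' : Subgroup G}
    (hA : IsPGroup ℓ A) (hAB : A ≤ B) (hAB' : A' ≤ B') (hA' : ¬ ℓ ∣ A'.relIndex B')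
    (hc : Nat.card B = Nat.card B') (hle : Nat.card A' ≤ Nat.card A) : ¬ ℓ ∣ A.relIndex B := by
  have h1 := card_le_of_sylow hA hAB hAB' hA' hc
  have h2 : Nat.card A = Nat.card A' := le_antisymm h1 hle
  have h3 := card_mul_relIndex hAB
  have h4 := card_mul_relIndex hAB'
  rw [hc, ← h4, h2] at h3
  have h5 : A.relIndex B = A'.relIndex B' := Nat.eq_of_mul_eq_mul_left Nat.card_pos h3
  rwa [h5]

/-- An `ℓ`-subgroup `X` of `A C`, where `C` is normal and `A` contains a Sylow subgroup of `C`, is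
conjugate under `C` to a subgroup of `A`. -/
theorem exists_cj_le_normal {M : Type*} [Group M] [Finite M] {A C X : Subgroup M} [C.Normal]
    (hA : IsPGroup ℓ A) (hAC : ¬ ℓ ∣ A.relIndex C) (hX : IsPGroup ℓ X) (hXA : X ≤ A ⊔ C) :
    ∃ c ∈ C, cj c X ≤ A := by
  obtain ⟨b, hb, h⟩ := exists_cj_le' (B := A ⊔ C) hA (by rwa [card_sup_relIndex]) hX hXA
  obtain ⟨s, hs, c, hc, rfl⟩ := Subgroup.mem_sup_of_normal_right.1 hb
  refine ⟨c, hc, ?_⟩
  rw [cj_mul] at h
  intro z hz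
  have h1 : s * z * s⁻¹ ∈ A := h (mem_cj.2 ⟨z, hz, rfl⟩)
  have h2 : z = s⁻¹ * (s * z * s⁻¹) * s := by group
  rw [h2]
  exact A.mul_mem (A.mul_mem (A.inv_mem hs) h1) hs

end sylow

section sat

variable {G : Type} [Group G] [Finite G] {S : Subgroup G} {ℓ : ℕ} [hℓ : Fact ℓ.Prime]

theorem isPGroup_inf_right (hS : IsPGroup ℓ S) (X : Subgroup G) : IsPGroup ℓ (X ⊓ S : Subgroup G) :=
  hS.to_le inf_le_right

theorem exists_conj_sylow (hS : IsPGroup ℓ S) (hI : ¬ ℓ ∣ S.index) (P : Subgroup S) :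
    ∃ Q : Subgroup S, ∃ g : G, cj g (upG P) = upG Q ∧ ¬ ℓ ∣ (NG Q ⊓ S).relIndex (NG Q) := by
  -- a Sylow subgroup of `N_G(P)` that contains `P`
  have h1 : IsPGroup ℓ ((upG P).subgroupOf (NG P)) :=
    (hS.to_le (up_le P)).comap_of_injective _ (NG P).subtype_injective
  obtain ⟨T', hT'⟩ := h1.exists_le_sylow
  set T : Subgroup G := (T' : Subgroup (NG P)).map (NG P).subtype with hT
  have hTN : T ≤ NG P := Subgroup.map_subtype_le _
  have hTP : upG P ≤ T := by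
    intro x hx
    exact ⟨⟨x, up_le_NG P hx⟩, hT' hx, rfl⟩
  have hTp : IsPGroup ℓ T := T'.isPGroup'.map _
  have hTi : ¬ ℓ ∣ T.relIndex (NG P) := by
    have h2 : T.relIndex (NG P) = (T' : Subgroup (NG P)).index := by
      rw [hT, Subgroup.relIndex, Subgroup.subgroupOf, Subgroup.comap_map_eq_self_of_injective
        (NG P).subtype_injective]
    rw [h2]
    exact T'.not_dvd_index
  obtain ⟨g, hg⟩ := exists_cj_le hS hI hTp
  obtain ⟨Q, hQ⟩ := exists_up (S := S) (X := cj g (upG P)) ((cj_mono g hTP).trans hg)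
  refine ⟨Q, g, hQ.symm, fun hd => ?_⟩
  have h3 : cj g (NG P) = NG Q := NG_cj hQ.symm
  have h4 : cj g T ≤ NG Q ⊓ S := le_inf (by rw [← h3]; exact cj_mono g hTN) hg
  have h5 : (NG Q ⊓ S).relIndex (NG Q) ∣ (cj g T).relIndex (NG Q) :=
    Subgroup.relIndex_dvd_of_le_left (NG Q) h4
  rw [← h3, relIndex_cj] at h5
  rw [← h3] at hd
  exact hTi (hd.trans h5)

theorem not_dvd_CG {Q : Subgroup S} (h : ¬ ℓ ∣ (NG Q ⊓ S).relIndex (NG Q)) :
    ¬ ℓ ∣ (CG Q ⊓ S).relIndex (CG Q) := by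
  have := CG_normal Q
  have h1 := not_dvd_relIndex_normal ((NG Q ⊓ S).subgroupOf (NG Q)) ((CG Q).subgroupOf (NG Q)) h
  have h2 : ((NG Q ⊓ S).subgroupOf (NG Q)).relIndex ((CG Q).subgroupOf (NG Q)) =
      (NG Q ⊓ S).relIndex (CG Q) := Subgroup.relIndex_subgroupOf (CG_le_NG Q)
  rw [h2] at h1
  have h3 : (NG Q ⊓ S).relIndex (CG Q) = (CG Q ⊓ S).relIndex (CG Q) := by
    rw [← Subgroup.inf_relIndex_right (NG Q ⊓ S)]
    congr 1
    rw [inf_assoc, inf_comm S, ← inf_assoc, inf_eq_right.2 (CG_le_NG Q)]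
  rwa [h3] at h1

/-- fully normalised subgroups have Sylow normalisers -/
theorem sylow_of_fullyNormalized (hS : IsPGroup ℓ S) (hI : ¬ ℓ ∣ S.index) {P : Subgroup S}
    (hP : (grpFS S).FullyNormalized P) : ¬ ℓ ∣ (NG P ⊓ S).relIndex (NG P) := by
  obtain ⟨Q, g, hg, hQ⟩ := exists_conj_sylow hS hI P
  have h1 := hP Q (conj_iff.2 ⟨g, hg⟩)
  rw [card_normalizer, card_normalizer] at h1
  refine not_dvd_of_card_le (isPGroup_inf_right hS _) inf_le_left inf_le_left hQ ?_ h1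
  rw [← NG_cj hg, card_cj]

/-- fully centralised subgroups have Sylow centralisers -/
theorem sylow_of_fullyCentralized (hS : IsPGroup ℓ S) (hI : ¬ ℓ ∣ S.index) {P : Subgroup S}
    (hP : (grpFS S).FullyCentralized P) : ¬ ℓ ∣ (CG P ⊓ S).relIndex (CG P) := by
  obtain ⟨Q, g, hg, hQ⟩ := exists_conj_sylow hS hI P
  have h1 := hP Q (conj_iff.2 ⟨g, hg⟩)
  rw [card_centralizer, card_centralizer] at h1
  refine not_dvd_of_card_le (isPGroup_inf_right hS _) inf_le_left inf_le_left (not_dvd_CG hQ) ?_ h1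
  rw [← CG_cj hg, card_cj]

theorem fullyCentralized_of_sylow (hS : IsPGroup ℓ S) {P : Subgroup S}
    (hP : ¬ ℓ ∣ (CG P ⊓ S).relIndex (CG P)) : (grpFS S).FullyCentralized P := by
  intro Q hQ
  obtain ⟨g, hg⟩ := conj_iff.1 hQ
  rw [card_centralizer, card_centralizer]
  refine card_le_of_sylow (isPGroup_inf_right hS _) inf_le_left inf_le_left hP ?_
  rw [← CG_cj hg, card_cj]

end sat

end Pool.FS95
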