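import Pool.Agent.LibFG56.C

/-!
# The fusion system of a finite group on a Sylow subgroup is saturated; automorphism groups
-/

set_option autoImplicit false
set_option linter.unusedSectionVars false

noncomputable section

namespace Pool.FS95

open MulAction

section naut

variable {G : Type} [Group G] {S : Subgroup G}

theorem ng_conj {P : Subgroup S} (g : NG P) (x : P) :
    (g : G) * ((x : S) : G) * (g : G)⁻¹ ∈ upG P := (mem_NG.1 g.2 _).1 (coe_mem_up.2 x.2)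

/-- the conjugation -/
def cjP {P : Subgroup S} (g : NG P) (x : P) : P :=
  ⟨⟨_, (mem_up.1 (ng_conj g x)).1⟩, (mem_up.1 (ng_conj g x)).2⟩

theorem cjP_coe {P : Subgroup S} (g : NG P) (x : P) :
    ((cjP g x : S) : G) = (g : G) * ((x : S) : G) * (g : G)⁻¹ := rfl

theorem P_ext {P : Subgroup S} {x y : P} (h : ((x : S) : G) = ((y : S) : G)) : x = y :=
  Subtype.ext (Subtype.ext h)

/-- `N_G(P) → Aut(P)` -/
def nAut (P : Subgroup S) : NG P →* MulAut P where
  toFun g :=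
    { toFun := cjP g
      invFun := cjP g⁻¹
      left_inv := fun x => P_ext (by
        rw [cjP_coe, cjP_coe]
        change (g : G)⁻¹ * ((g : G) * ((x : S) : G) * (g : G)⁻¹) * ((g : G)⁻¹)⁻¹ = _
        group)
      right_inv := fun x => P_ext (by
        rw [cjP_coe, cjP_coe]
        change (g : G) * ((g : G)⁻¹ * ((x : S) : G) * ((g : G)⁻¹)⁻¹) * (g : G)⁻¹ = _
        group)
      map_mul' := fun x y => P_ext (by
        rw [cjP_coe]
        change _ = ((cjP g x : S) : G) * ((cjP g y : S) : G)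
        rw [cjP_coe, cjP_coe]
        change (g : G) * (((x : S) : G) * ((y : S) : G)) * (g : G)⁻¹ = _
        group) }
  map_one' := by
    ext x
    change (1 : G) * ((x : S) : G) * (1 : G)⁻¹ = ((x : S) : G)
    group
  map_mul' g h := by
    ext x
    change ((g : G) * (h : G)) * ((x : S) : G) * ((g : G) * (h : G))⁻¹ =
      (g : G) * ((h : G) * ((x : S) : G) * (h : G)⁻¹) * (g : G)⁻¹
    group

theorem nAut_apply {P : Subgroup S} (g : NG P) (x : P) :
    ((nAut P g x : S) : G) = (g : G) * ((x : S) : G) * (g : G)⁻¹ := rfl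

theorem mem_AutF {P : Subgroup S} {α : MulAut P} :
    α ∈ (grpFS S).AutF P ↔ ∃ g : G, ∀ x : P, ((α x : S) : G) = g * ((x : S) : G) * g⁻¹ := Iff.rfl

theorem nAut_mem {P : Subgroup S} (g : NG P) : nAut P g ∈ (grpFS S).AutF P :=
  mem_AutF.2 ⟨g, fun _ => rfl⟩

theorem exists_nAut {P : Subgroup S} {α : MulAut P} (h : α ∈ (grpFS S).AutF P) :
    ∃ g : NG P, nAut P g = α := by
  obtain ⟨g, hg⟩ := mem_AutF.1 h
  have hgN : g ∈ NG P := by
    refine mem_NG.2 fun x => ?_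
    constructor
    · intro hx
      obtain ⟨hxS, hx⟩ := mem_up.1 hx
      have h1 := hg ⟨⟨x, hxS⟩, hx⟩
      have h2 : g * x * g⁻¹ = ((α ⟨⟨x, hxS⟩, hx⟩ : S) : G) := h1.symm
      rw [h2]
      exact coe_mem_up.2 (α ⟨⟨x, hxS⟩, hx⟩).2
    · intro hx
      obtain ⟨hxS, hx⟩ := mem_up.1 hx
      have h1 := hg (α⁻¹ ⟨⟨_, hxS⟩, hx⟩)
      rw [MulAut.apply_inv_self] at h1
      have h2 : x = ((α⁻¹ ⟨⟨_, hxS⟩, hx⟩ : P) : S) := by
        have h3 : g * x * g⁻¹ = g * (((α⁻¹ ⟨⟨_, hxS⟩, hx⟩ : P) : S) : G) * g⁻¹ := h1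
        have h4 := mul_right_cancel h3
        exact mul_left_cancel h4
      rw [h2]
      exact coe_mem_up.2 (α⁻¹ ⟨⟨_, hxS⟩, hx⟩).2
  refine ⟨⟨g, hgN⟩, ?_⟩
  ext x
  exact (hg x).symm

theorem mem_ker_nAut {P : Subgroup S} {g : NG P} : nAut P g = 1 ↔ (g : G) ∈ CG P := by
  rw [mem_CG]
  constructor
  · intro h x hx
    obtain ⟨hxS, hx⟩ := mem_up.1 hx
    have h1 : nAut P g ⟨⟨x, hxS⟩, hx⟩ = ⟨⟨x, hxS⟩, hx⟩ := by rw [h]; rfl
    have h2 : (g : G) * x * (g : G)⁻¹ = x := congrArg (fun z : P => ((z : S) : G)) h1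
    calc x * (g : G) = (g : G) * x * (g : G)⁻¹ * (g : G) := by rw [h2]
      _ = (g : G) * x := by group
  · intro h
    ext x
    rw [nAut_apply, ← h _ (coe_mem_up.2 x.2)]
    change _ = ((x : S) : G)
    group

/-- the surjection onto `Aut_F(P)` -/
def nAutF (P : Subgroup S) : NG P →* (grpFS S).AutF P :=
  (nAut P).codRestrict _ (fun g => nAut_mem g)

theorem nAutF_surjective (P : Subgroup S) : Function.Surjective (nAutF P) := by
  rintro ⟨α, hα⟩
  obtain ⟨g, hg⟩ := exists_nAut hα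
  exact ⟨g, Subtype.ext hg⟩

theorem map_nAutF (P : Subgroup S) :
    ((NG P ⊓ S).subgroupOf (NG P)).map (nAutF P) =
      (FusionSystem.AutS P).subgroupOf ((grpFS S).AutF P) := by
  ext α
  constructor
  · rintro ⟨g, hg, rfl⟩
    have h1 : (g : G) ∈ S := (Subgroup.mem_subgroupOf.1 hg).2
    refine Subgroup.mem_subgroupOf.2 ⟨⟨g, h1⟩, fun x => Subtype.ext ?_⟩
    rfl
  · intro hα
    obtain ⟨s, hs⟩ := Subgroup.mem_subgroupOf.1 hα
    obtain ⟨g, hg⟩ := exists_nAut α.2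
    have hsN : (s : G) ∈ NG P := by
      obtain ⟨t, ht⟩ := exists_nAut (α := (α : MulAut P)) (mem_AutF.2 ⟨s, fun x => by rw [hs x]; rfl⟩)
      -- directly
      refine mem_NG.2 fun x => ?_
      constructor
      · intro hx
        obtain ⟨hxS, hx⟩ := mem_up.1 hx
        have h1 := hs ⟨⟨x, hxS⟩, hx⟩
        have h2 : (s : G) * x * (s : G)⁻¹ = (((α : MulAut P) ⟨⟨x, hxS⟩, hx⟩ : S) : G) := by
          rw [h1]; rfl
        rw [h2]
        exact coe_mem_up.2 ((α : MulAut P) ⟨⟨x, hxS⟩, hx⟩).2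
      · intro hx
        obtain ⟨hxS, hx⟩ := mem_up.1 hx
        have h1 := hs ((α : MulAut P)⁻¹ ⟨⟨_, hxS⟩, hx⟩)
        rw [MulAut.apply_inv_self] at h1
        have h2 : x = (((α : MulAut P)⁻¹ ⟨⟨_, hxS⟩, hx⟩ : P) : S) := by
          have h3 : (s : G) * x * (s : G)⁻¹ =
              (s : G) * ((((α : MulAut P)⁻¹ ⟨⟨_, hxS⟩, hx⟩ : P) : S) : G) * (s : G)⁻¹ :=
            congrArg Subtype.val h1
          have h4 := mul_right_cancel h3
          exact mul_left_cancel h4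
        rw [h2]
        exact coe_mem_up.2 ((α : MulAut P)⁻¹ ⟨⟨_, hxS⟩, hx⟩).2
    refine ⟨⟨s, hsN⟩, Subgroup.mem_subgroupOf.2 ⟨hsN, s.2⟩, ?_⟩
    apply Subtype.ext
    ext x
    rw [hs x]
    rfl

end naut

section sat

variable {G : Type} [Group G] [Finite G] {S : Subgroup G} {ℓ : ℕ} [hℓ : Fact ℓ.Prime]

theorem not_dvd_AutS {P : Subgroup S} (h : ¬ ℓ ∣ (NG P ⊓ S).relIndex (NG P)) :
    ¬ ℓ ∣ (FusionSystem.AutS P).relIndex ((grpFS S).AutF P) := by
  intro hd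
  apply h
  have h1 := Subgroup.index_map_dvd ((NG P ⊓ S).subgroupOf (NG P)) (nAutF_surjective P)
  rw [map_nAutF] at h1
  exact hd.trans h1

theorem up_map {N : Subgroup S} (n : N) : ((n : S) : G) ∈ upG N := coe_mem_up.2 n.2

/-- `F_S(G)` is saturated. -/
theorem grpFS_saturated (hS : IsPGroup ℓ S) (hI : ¬ ℓ ∣ S.index) : (grpFS S).Saturated ℓ where
  sylow P hP := by
    have h1 := sylow_of_fullyNormalized hS hI hP
    exact ⟨fullyCentralized_of_sylow hS (not_dvd_CG h1), not_dvd_AutS h1⟩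
  ext P Q e he hQ := by
    obtain ⟨g, hg⟩ := he
    have hg' : ∀ x : P, ((e x : S) : G) = g * ((x : S) : G) * g⁻¹ := hg
    have hCS := sylow_of_fullyCentralized hS hI hQ
    -- `g N_φ g⁻¹ ≤ N_S(Q) C_G(Q)`
    have h1 : ∀ n ∈ FusionSystem.Nphi e, ∃ n' ∈ NG Q ⊓ S, ∃ c ∈ CG Q,
        g * (n : G) * g⁻¹ = n' * c := by
      rintro n ⟨hn, n', hn', h⟩
      have h2 : (n' : G) ∈ NG Q ⊓ S := by
        rw [← map_normalizer]
        exact ⟨n', hn', rfl⟩
      refine ⟨n', h2, (n' : G)⁻¹ * (g * (n : G) * g⁻¹), ?_, by group⟩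
      refine mem_CG.2 fun y hy => ?_
      obtain ⟨hyS, hy⟩ := mem_up.1 hy
      obtain ⟨x, hx⟩ := e.surjective ⟨⟨y, hyS⟩, hy⟩
      have hxn : n * (x : S) * n⁻¹ ∈ P := (Subgroup.mem_normalizer_iff.1 hn x).1 x.2
      have h3 := h x ⟨_, hxn⟩ rfl
      have h4 := congrArg (fun z : S => (z : G)) h3
      have h5 := hg' ⟨_, hxn⟩
      have h6 := hg' x
      have h7 : ((e x : S) : G) = y := by rw [hx]
      have h8 : g * ((n : G) * ((x : S) : G) * (n : G)⁻¹) * g⁻¹ = (n' : G) * y * (n' : G)⁻¹ := by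
        have h9 : g * ((n : G) * ((x : S) : G) * (n : G)⁻¹) * g⁻¹ = ((e ⟨_, hxn⟩ : S) : G) := h5.symm
        rw [h9]
        have h10 : ((e ⟨_, hxn⟩ : S) : G) = (n' : G) * ((e x : S) : G) * (n' : G)⁻¹ := h4
        rw [h10, h7]
      have h11 : ((x : S) : G) = g⁻¹ * y * g := by
        rw [← h7, h6]
        group
      rw [h11] at h8
      -- `n'⁻¹ g n g⁻¹` commutes with `y`
      have h12 : y * ((n' : G)⁻¹ * (g * (n : G) * g⁻¹)) =
          (n' : G)⁻¹ * ((n' : G) * y * (n' : G)⁻¹) * (g * (n : G) * g⁻¹) := by group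
      rw [h12, ← h8]
      group
    have hCN := CG_normal Q
    set N' : Subgroup G := cj g (upG (FusionSystem.Nphi e)) with hN'
    have hN'S : IsPGroup ℓ N' := by
      have : IsPGroup ℓ (upG (FusionSystem.Nphi e)) := hS.to_le (up_le _)
      exact this.map _
    have hN'N : N' ≤ NG Q := by
      intro z hz
      obtain ⟨x, hx, rfl⟩ := mem_cj.1 hz
      obtain ⟨hxS, hx⟩ := mem_up.1 hx
      obtain ⟨n', hn', c, hc, h⟩ := h1 ⟨x, hxS⟩ hx
      have h : g * x * g⁻¹ = n' * c := h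
      rw [h]
      exact (NG Q).mul_mem hn'.1 (CG_le_NG Q hc)
    have hXA : N'.subgroupOf (NG Q) ≤ (NG Q ⊓ S).subgroupOf (NG Q) ⊔ (CG Q).subgroupOf (NG Q) := by
      rintro ⟨z, hzN⟩ hz
      obtain ⟨x, hx, h2⟩ := mem_cj.1 (Subgroup.mem_subgroupOf.1 hz)
      obtain ⟨hxS, hx⟩ := mem_up.1 hx
      obtain ⟨n', hn', c, hc, h⟩ := h1 ⟨x, hxS⟩ hx
      have h3 : z = n' * c := by
        have h4 : g * x * g⁻¹ = z := h2
        rw [← h4]
        exact h
      refine Subgroup.mem_sup_of_normal_right.2 ⟨⟨n', hn'.1⟩, Subgroup.mem_subgroupOf.2 hn',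
        ⟨c, CG_le_NG Q hc⟩, Subgroup.mem_subgroupOf.2 hc, Subtype.ext h3.symm⟩
    have hAp : IsPGroup ℓ ((NG Q ⊓ S).subgroupOf (NG Q)) :=
      (isPGroup_inf_right hS _).comap_of_injective _ (NG Q).subtype_injective
    have hXp : IsPGroup ℓ (N'.subgroupOf (NG Q)) :=
      hN'S.comap_of_injective _ (NG Q).subtype_injective
    have hAC : ¬ ℓ ∣ ((NG Q ⊓ S).subgroupOf (NG Q)).relIndex ((CG Q).subgroupOf (NG Q)) := by
      have h2 : ((NG Q ⊓ S).subgroupOf (NG Q)).relIndex ((CG Q).subgroupOf (NG Q)) =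
        (NG Q ⊓ S).relIndex (CG Q) := Subgroup.relIndex_subgroupOf (CG_le_NG Q)
      have h3 : (NG Q ⊓ S).relIndex (CG Q) = (CG Q ⊓ S).relIndex (CG Q) := by
        rw [← Subgroup.inf_relIndex_right (NG Q ⊓ S)]
        congr 1
        rw [inf_assoc, inf_comm S, ← inf_assoc, inf_eq_right.2 (CG_le_NG Q)]
      rw [h2, h3]
      exact hCS
    obtain ⟨c, hc, hle⟩ := exists_cj_le_normal hAp hAC hXp hXA
    have hcC : (c : G) ∈ CG Q := Subgroup.mem_subgroupOf.1 hc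
    -- the extension
    have hψ : ∀ n : FusionSystem.Nphi e, ((c : G) * g) * ((n : S) : G) * ((c : G) * g)⁻¹ ∈ S := by
      intro n
      have h2 : g * ((n : S) : G) * g⁻¹ ∈ N' := mem_cj.2 ⟨_, up_map n, rfl⟩
      have h3 := hle (mem_cj.2 ⟨⟨_, hN'N h2⟩, Subgroup.mem_subgroupOf.2 h2, rfl⟩)
      have h4 : (c : G) * (g * ((n : S) : G) * g⁻¹) * (c : G)⁻¹ ∈ NG Q ⊓ S :=
        Subgroup.mem_subgroupOf.1 h3
      have h5 : ((c : G) * g) * ((n : S) : G) * ((c : G) * g)⁻¹ =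
          (c : G) * (g * ((n : S) : G) * g⁻¹) * (c : G)⁻¹ := by group
      rw [h5]
      exact h4.2
    refine ⟨{ toFun := fun n => ⟨⟨_, hψ n⟩, Subgroup.mem_top _⟩
              map_one' := ?_
              map_mul' := ?_ }, ⟨(c : G) * g, fun n => rfl⟩, ?_⟩
    · apply Subtype.ext
      apply Subtype.ext
      change ((c : G) * g) * (1 : G) * ((c : G) * g)⁻¹ = 1
      group
    · intro m n
      apply Subtype.ext
      apply Subtype.ext
      change ((c : G) * g) * (((m : S) : G) * ((n : S) : G)) * ((c : G) * g)⁻¹ =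
        (((c : G) * g) * ((m : S) : G) * ((c : G) * g)⁻¹) *
        (((c : G) * g) * ((n : S) : G) * ((c : G) * g)⁻¹)
      group
    · intro x hx
      apply Subtype.ext
      change ((c : G) * g) * ((x : S) : G) * ((c : G) * g)⁻¹ = ((e x : S) : G)
      rw [hg' x]
      have h2 : g * ((x : S) : G) * g⁻¹ ∈ upG Q := by
        rw [← hg' x]
        exact coe_mem_up.2 (e x).2
      have h3 := mem_CG.1 hcC _ h2
      calc ((c : G) * g) * ((x : S) : G) * ((c : G) * g)⁻¹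
          = ((c : G) * (g * ((x : S) : G) * g⁻¹)) * (c : G)⁻¹ := by group
        _ = ((g * ((x : S) : G) * g⁻¹) * (c : G)) * (c : G)⁻¹ := by rw [h3]
        _ = g * ((x : S) : G) * g⁻¹ := by group

end sat

end Pool.FS95
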