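import Pool.Agent.LibFG56.D

/-!
# `Out_F(P)` for `F = F_S(G)`, and a normal abelian self-centralising `ℓ`-subgroup `V`
-/

set_option autoImplicit false
set_option linter.unusedSectionVars false

noncomputable section

namespace Pool.FS95

open MulAction

section out

variable {G : Type} [Group G] {S : Subgroup G}

/-- `N_G(P) → Out_F(P)` -/
def nOut (P : Subgroup S) : NG P →* (grpFS S).OutF P :=
  (QuotientGroup.mk' ((FusionSystem.inn P).subgroupOf ((grpFS S).AutF P))).comp (nAutF P)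

theorem nOut_surjective (P : Subgroup S) : Function.Surjective (nOut P) :=
  (QuotientGroup.mk'_surjective _).comp (nAutF_surjective P)

theorem mem_ker_nOut {P : Subgroup S} {g : NG P} :
    g ∈ (nOut P).ker ↔ ∃ p ∈ upG P, ∃ c ∈ CG P, (g : G) = p * c := by
  have h0 : g ∈ (nOut P).ker ↔ ∃ p : P, MulAut.conj p = nAut P g := by
    rw [MonoidHom.mem_ker]
    change QuotientGroup.mk (nAutF P g) = (1 : (grpFS S).OutF P) ↔ _
    rw [QuotientGroup.eq_one_iff, Subgroup.mem_subgroupOf]
    exact Iff.rfl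
  rw [h0]
  constructor
  · rintro ⟨p, hp⟩
    refine ⟨((p : S) : G), coe_mem_up.2 p.2, ((p : S) : G)⁻¹ * (g : G), ?_, by group⟩
    refine mem_CG.2 fun x hx => ?_
    obtain ⟨hxS, hx⟩ := mem_up.1 hx
    have h1 := DFunLike.congr_fun hp ⟨⟨x, hxS⟩, hx⟩
    have h2 : ((p : S) : G) * x * ((p : S) : G)⁻¹ = (g : G) * x * (g : G)⁻¹ :=
      congrArg (fun z : P => ((z : S) : G)) h1
    calc x * (((p : S) : G)⁻¹ * (g : G))
        = ((p : S) : G)⁻¹ * (((p : S) : G) * x * ((p : S) : G)⁻¹) * (g : G) := by group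
      _ = ((p : S) : G)⁻¹ * ((g : G) * x * (g : G)⁻¹) * (g : G) := by rw [h2]
      _ = ((p : S) : G)⁻¹ * (g : G) * x := by group
  · rintro ⟨p, hp, c, hc, hg⟩
    obtain ⟨hpS, hp⟩ := mem_up.1 hp
    refine ⟨⟨⟨p, hpS⟩, hp⟩, ?_⟩
    ext x
    change p * ((x : S) : G) * p⁻¹ = (g : G) * ((x : S) : G) * (g : G)⁻¹
    have h1 := mem_CG.1 hc _ (coe_mem_up.2 x.2)
    have h2 : c * ((x : S) : G) * c⁻¹ = ((x : S) : G) := by rw [← h1]; group
    calc p * ((x : S) : G) * p⁻¹ = p * (c * ((x : S) : G) * c⁻¹) * p⁻¹ := by rw [h2]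
      _ = (p * c) * ((x : S) : G) * (p * c)⁻¹ := by group
      _ = _ := by rw [hg]

theorem outF_smul {P : Subgroup S} {Y : Type} [MulAction (MulAut P) Y] [InnTriv P Y] (g : NG P)
    (y : Y) : nOut P g • y = nAut P g • y := rfl

end out

section V

variable {G : Type} [Group G] [Finite G] {S : Subgroup G} {ℓ : ℕ} [hℓ : Fact ℓ.Prime]

theorem V_le_S (hS : IsPGroup ℓ S) (hI : ¬ ℓ ∣ S.index) (V : Subgroup G) [V.Normal]
    (hV : IsPGroup ℓ V) : V ≤ S := by
  have h1 := IsPGroup.le_sylow_of_normal hV (hS.toSylow hI)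
  exact h1

/-- if `V ≤ P` then the kernel of `N_G(P) → Out_F(P)` is `P` -/
theorem ker_nOut_of_le (V : Subgroup G) (hVC : Subgroup.centralizer (V : Set G) ≤ V)
    {P : Subgroup S} (hVP : V ≤ upG P) : (nOut P).ker = (upG P).subgroupOf (NG P) := by
  ext g
  rw [mem_ker_nOut, Subgroup.mem_subgroupOf]
  constructor
  · rintro ⟨p, hp, c, hc, hg⟩
    rw [hg]
    refine (upG P).mul_mem hp (hVP (hVC ?_))
    exact Subgroup.centralizer_le hVP hc
  · intro hg
    exact ⟨g, hg, 1, one_mem _, (mul_one _).symm⟩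

theorem card_outF_lt (V : Subgroup G) (hVC : Subgroup.centralizer (V : Set G) ≤ V)
    {P : Subgroup S} (hVP : V ≤ upG P) (hne : upG P ≠ V) : Nat.card ((grpFS S).OutF P) < V.index := by
  have h1 : Nat.card ((grpFS S).OutF P) = (upG P).relIndex (NG P) := by
    have h2 : Nat.card ((grpFS S).OutF P) = (nOut P).ker.index := by
      rw [Subgroup.index_ker]
      have : (nOut P).range = ⊤ := MonoidHom.range_eq_top.2 (nOut_surjective P)
      rw [this]
      exact (Nat.card_congr Subgroup.topEquiv.toEquiv).symm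
    rw [h2, ker_nOut_of_le V hVC hVP]
    rfl
  rw [h1]
  have h3 : (upG P).relIndex (NG P) ≤ (upG P).index := by
    have := Subgroup.relIndex_dvd_index_of_le (up_le_NG P)
    exact Nat.le_of_dvd (Nat.pos_of_ne_zero Subgroup.index_ne_zero_of_finite) this
  have h4 : V.relIndex (upG P) * (upG P).index = V.index := Subgroup.relIndex_mul_index hVP
  have h5 : 1 < V.relIndex (upG P) := by
    have h6 : V.relIndex (upG P) ≠ 0 := Subgroup.index_ne_zero_of_finite
    have h7 : V.relIndex (upG P) ≠ 1 := by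
      intro h
      rw [Subgroup.relIndex_eq_one] at h
      exact hne (le_antisymm h hVP)
    omega
  have h8 : 0 < (upG P).index := Nat.pos_of_ne_zero Subgroup.index_ne_zero_of_finite
  calc (upG P).relIndex (NG P) ≤ (upG P).index := h3
    _ = 1 * (upG P).index := (one_mul _).symm
    _ < V.relIndex (upG P) * (upG P).index := Nat.mul_lt_mul_of_pos_right h5 h8
    _ = V.index := h4

/-- the normaliser condition: if `V` is not contained in `P`, some element of `V` outside `P`
normalises `P` -/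
theorem exists_mem_V_NG (hS : IsPGroup ℓ S) (V : Subgroup G) [V.Normal] (hVS : V ≤ S)
    {P : Subgroup S} (hVP : ¬ V ≤ upG P) : ∃ v ∈ V, v ∈ NG P ∧ v ∉ upG P := by
  -- work in `T = P V`
  set T : Subgroup G := upG P ⊔ V with hT
  have hTS : T ≤ S := sup_le (up_le P) hVS
  have hTp : IsPGroup ℓ T := hS.to_le hTS
  have hPT : upG P ≤ T := le_sup_left
  have : Group.IsNilpotent T := hTp.isNilpotent
  have hlt : (upG P).subgroupOf T < ⊤ := by
    refine lt_top_iff_ne_top.2 fun h => hVP ?_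
    rw [Subgroup.subgroupOf_eq_top] at h
    exact le_sup_right.trans h
  have h1 := Group.normalizerCondition_of_isNilpotent (G := T) _ hlt
  obtain ⟨x, hx1, hx2⟩ := SetLike.exists_of_lt h1
  obtain ⟨p, hp, v, hv, hpv⟩ := Subgroup.mem_sup_of_normal_right.1 x.2
  have hxN : (x : G) ∈ NG P := by
    refine mem_NG.2 fun y => ?_
    have h2 := Subgroup.mem_normalizer_iff.1 hx1
    constructor
    · intro hy
      exact (h2 ⟨y, hPT hy⟩).1 hy
    · intro hy
      have h3 : y ∈ T := by
        have h4 := T.mul_mem (T.mul_mem (T.inv_mem x.2) (hPT hy)) x.2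
        have h5 : (x : G)⁻¹ * ((x : G) * y * (x : G)⁻¹) * (x : G) = y := by group
        rwa [h5] at h4
      exact (h2 ⟨y, h3⟩).2 hy
  have hvx : v = p⁻¹ * (x : G) := by rw [← hpv]; group
  refine ⟨v, hv, ?_, fun hvP => hx2 ?_⟩
  · rw [hvx]
    exact (NG P).mul_mem ((NG P).inv_mem (up_le_NG P hp)) hxN
  · rw [Subgroup.mem_subgroupOf, ← hpv]
    exact (upG P).mul_mem hp hvP

/-- centric radical subgroups contain `V` -/
theorem V_le_of_CR (hS : IsPGroup ℓ S) (V : Subgroup G) [V.Normal] (hVS : V ≤ S)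
    {P : Subgroup S} (hc : (grpFS S).Centric P) (hr : (grpFS S).Radical ℓ P) : V ≤ upG P := by
  by_contra hVP
  obtain ⟨v, hv, hvN, hvP⟩ := exists_mem_V_NG hS V hVS hVP
  have h1 := hr ((V.subgroupOf (NG P)).map (nOut P))
    (Subgroup.Normal.map inferInstance _ (nOut_surjective P))
    (((hS.to_le hVS).comap_of_injective _ (NG P).subtype_injective).map _)
  have h2 : nOut P ⟨v, hvN⟩ ∈ (V.subgroupOf (NG P)).map (nOut P) :=
    ⟨_, Subgroup.mem_subgroupOf.2 hv, rfl⟩
  rw [h1, Subgroup.mem_bot, ← MonoidHom.mem_ker, mem_ker_nOut] at h2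
  obtain ⟨p, hp, c, hcC, h3⟩ := h2
  have h3 : v = p * c := h3
  apply hvP
  rw [h3]
  refine (upG P).mul_mem hp ?_
  have h4 : c ∈ CG P ⊓ S := by
    refine ⟨hcC, ?_⟩
    have h5 : c = p⁻¹ * v := by rw [h3]; group
    rw [h5]
    exact S.mul_mem (S.inv_mem (up_le P hp)) (hVS hv)
  rw [← map_centralizer] at h4
  obtain ⟨z, hz, hzc⟩ := h4
  have h6 := hc P ((grpFS S).conj_refl P) hz
  rw [← hzc]
  exact coe_mem_up.2 h6

theorem cj_normal (V : Subgroup G) [V.Normal] (g : G) : cj g V = V := by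
  ext z
  rw [mem_cj]
  constructor
  · rintro ⟨x, hx, rfl⟩
    exact Subgroup.Normal.conj_mem inferInstance x hx g
  · intro hz
    have := Subgroup.Normal.conj_mem (H := V) inferInstance z hz g⁻¹
    refine ⟨g⁻¹ * z * g, by simpa using this, by group⟩

theorem up_injective {P Q : Subgroup S} (h : upG P = upG Q) : P = Q := by
  ext x
  rw [← coe_mem_up, ← coe_mem_up (P := Q), h]

theorem conj_V {V : Subgroup G} [V.Normal] {P Q : Subgroup S} (hP : upG P = V)
    (h : (grpFS S).Conj P Q) : Q = P := by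
  obtain ⟨g, hg⟩ := conj_iff.1 h
  apply up_injective
  rw [← hg, hP, cj_normal]

theorem centric_V {V : Subgroup G} [V.Normal] (hVC : Subgroup.centralizer (V : Set G) ≤ V)
    {P : Subgroup S} (hP : upG P = V) : (grpFS S).Centric P := by
  intro Q hQ
  have h1 := conj_V hP hQ
  subst h1
  intro z hz
  have h2 : (z : G) ∈ CG Q ⊓ S := by
    rw [← map_centralizer]
    exact ⟨z, hz, rfl⟩
  have h3 : (z : G) ∈ Subgroup.centralizer (V : Set G) := by
    rw [← hP]
    exact h2.1
  have h4 := hVC h3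
  rw [← hP] at h4
  exact coe_mem_up.1 h4

theorem NG_V {V : Subgroup G} [V.Normal] {P : Subgroup S} (hP : upG P = V) : NG P = ⊤ := by
  unfold NG
  rw [hP]
  exact Subgroup.normalizer_eq_top_iff.2 inferInstance

/-- `Out_F(V) ≅ G/V` -/
def outV {V : Subgroup G} [V.Normal] (hVC : Subgroup.centralizer (V : Set G) ≤ V)
    {P : Subgroup S} (hP : upG P = V) : G ⧸ V ≃* (grpFS S).OutF P := by
  have h1 : NG P = ⊤ := NG_V hP
  let f : G →* (grpFS S).OutF P :=
    (nOut P).comp ((MonoidHom.id G).codRestrict (NG P) (fun g => by rw [h1]; trivial))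
  have hf : Function.Surjective f := by
    intro y
    obtain ⟨g, hg⟩ := nOut_surjective P y
    exact ⟨g, hg⟩
  have hk : f.ker = V := by
    ext g
    have h2 := ker_nOut_of_le V hVC (P := P) (le_of_eq hP.symm)
    have h3 : g ∈ f.ker ↔ (⟨g, by rw [h1]; trivial⟩ : NG P) ∈ (nOut P).ker := Iff.rfl
    rw [h3, h2, Subgroup.mem_subgroupOf, hP]
  exact (QuotientGroup.quotientMulEquivOfEq hk.symm).trans
    (QuotientGroup.quotientKerEquivOfSurjective f hf)

end V

theorem OTriv_congr {ℓ : ℕ} {H K : Type*} [Group H] [Group K] (e : H ≃* K) (h : OTriv ℓ H) :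
    OTriv ℓ K := by
  intro N hN hp
  have h1 := h (N.comap e.toMonoidHom) (hN.comap _) (hp.comap_of_injective _ e.injective)
  rw [eq_bot_iff] at h1 ⊢
  intro x hx
  have h2 : e.symm x ∈ N.comap e.toMonoidHom := by
    rw [Subgroup.mem_comap]
    change e (e.symm x) ∈ N
    rwa [MulEquiv.apply_symm_apply]
  have h3 := h1 h2
  rw [Subgroup.mem_bot] at h3 ⊢
  have h4 := congrArg e h3
  rwa [MulEquiv.apply_symm_apply, map_one] at h4

end Pool.FS95
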