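import Pool.Agent.LibFS95.Main1
import Pool.Agent.LibFS95.K6
import Pool.Agent.LibFS95.N5
import Pool.Agent.LibFS95.N6

/-!
# Interface with part 3 (helper95): `m(F) - k(F)` as a sum over the centric radical subgroups
-/

set_option autoImplicit false
noncomputable section
open MulAction
namespace Pool.FS95

theorem m_sub_k (ℓ : ℕ) [Fact ℓ.Prime] (k : Type) [Field k] [CharP k ℓ] {S : Type} [Group S]
    [Finite S] (hS : IsPGroup ℓ S) (F : FusionSystem S) (hF : F.Saturated ℓ) :
    F.m ℓ k - F.k ℓ k = clsum (F.subSetoid fun P => F.Centric P ∧ F.Radical ℓ P) fun Q =>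
      W ℓ (fun K _ => zproj k K) (F.OutF Q.1) (Irr Q.1) -
      W ℓ (fun K _ => zproj k K) (F.OutF Q.1) (ConjClasses Q.1) := by
  rw [k_eq hS hF k, m_eq F ℓ k]
  exact (clsum_sub _ _).symm

end Pool.FS95
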