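import Pool.Agent.LibFG56.E
import Pool.Agent.LibFG56.IF

/-!
# `W` in the minimal case; the value of `m(F) - k(F)` for `F = F_S(G)`, `G` minimal
-/

set_option autoImplicit false
set_option linter.unusedSectionVars false

noncomputable section

namespace Pool.FS95

open MulAction

section W

variable {ℓ : ℕ} [hℓ : Fact ℓ.Prime]

/-- the chain `{1}` -/
def nch0 (ℓ : ℕ) (H : Type) [Group H] : NChain ℓ H :=
  ⟨{⊥}, { bot_mem := rfl
          isPGroup := by
            rintro X rfl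
            exact IsPGroup.of_bot
          total := by
            rintro X rfl Y rfl
            exact Or.inl le_rfl
          normal := by
            rintro X rfl Y rfl _
            exact Subgroup.le_normalizer }⟩

theorem stab_nch0 (ℓ : ℕ) (H : Type) [Group H] : stabilizer H (nch0 ℓ H) = ⊤ := by
  rw [eq_top_iff]
  intro h _
  rw [mem_stab_iff]
  change cj h '' {⊥} = {⊥}
  rw [Set.image_singleton, cj_bot]

theorem len_nch0 (ℓ : ℕ) (H : Type) [Group H] : (nch0 ℓ H).len = 0 := by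
  change Set.ncard {⊥} - 1 = 0
  rw [Set.ncard_singleton]

theorem eq_nch0 {H : Type} [Group H] [Finite H] (hO : OTriv ℓ H) (σ : NChain ℓ H)
    (h : stabilizer H σ = ⊤) : σ = nch0 ℓ H := by
  apply Subtype.ext
  change σ.1 = {⊥}
  rw [← chain_sSup_bot σ]
  have h1 : sSup σ.1 ∈ σ.1 := sSup_mem_of_total ⟨_, σ.2.bot_mem⟩ σ.2.total
  apply hO _ _ (σ.2.isPGroup _ h1)
  rw [← Subgroup.normalizer_eq_top_iff]
  rw [eq_top_iff]
  intro g _
  exact mem_stab_normalizer (by rw [h]; trivial) h1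

/-- `W` if `ζ` vanishes on the proper subgroups of `H` -/
theorem W_of_min (ζ : ∀ (K : Type) [Group K], ℤ) (hζ : IsoInv ζ) (H Y : Type) [Group H] [Finite H]
    [MulAction H Y] [Finite Y] (hO : OTriv ℓ H) (h0 : ∀ K : Subgroup H, K ≠ ⊤ → ζ ↥K = 0) :
    W ℓ ζ H Y = (Nat.card {y : Y // ∀ h : H, h • y = y} : ℤ) * ζ H := by
  have h1 := card_mul_W ℓ hζ H Y
  have h2 : ∀ σ : NChain ℓ H, σ ≠ nch0 ℓ H → (∑ᶠ y : Y,
      (-1 : ℤ) ^ σ.len * ((Nat.card ↥(stabilizer H σ ⊓ stabilizer H y) : ℤ) *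
        ζ ↥(stabilizer H σ ⊓ stabilizer H y))) = 0 := by
    intro σ hσ
    rw [finsum_congr (g := fun _ => (0 : ℤ)), finsum_zero]
    intro y
    have h3 : stabilizer H σ ⊓ stabilizer H y ≠ ⊤ := by
      intro h
      apply hσ
      apply eq_nch0 hO
      rw [eq_top_iff, ← h]
      exact inf_le_left
    rw [h0 _ h3, mul_zero, mul_zero]
  rw [finsum_eq_single _ (nch0 ℓ H) h2, len_nch0, pow_zero, stab_nch0] at h1
  have h4 : ∀ y : Y, (1 : ℤ) * ((Nat.card ↥((⊤ : Subgroup H) ⊓ stabilizer H y) : ℤ) *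
      ζ ↥((⊤ : Subgroup H) ⊓ stabilizer H y)) =
      Set.indicator {y : Y | ∀ h : H, h • y = y} (fun _ => (Nat.card H : ℤ) * ζ H) y := by
    intro y
    rw [one_mul]
    by_cases hy : ∀ h : H, h • y = y
    · rw [Set.indicator_of_mem (show y ∈ {y : Y | ∀ h : H, h • y = y} from hy)]
      have h5 : (⊤ : Subgroup H) ⊓ stabilizer H y = ⊤ := by
        rw [eq_top_iff]
        intro h _
        exact ⟨trivial, hy h⟩
      rw [h5]
      have h6 : Nat.card (⊤ : Subgroup H) = Nat.card H := Nat.card_congr Subgroup.topEquiv.toEquiv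
      have h7 : ζ ↥(⊤ : Subgroup H) = ζ H := hζ _ _ ⟨Subgroup.topEquiv⟩
      rw [h6, h7]
    · rw [Set.indicator_of_notMem (show y ∉ {y : Y | ∀ h : H, h • y = y} from hy)]
      rw [h0, mul_zero]
      intro h
      apply hy
      intro g
      have : g ∈ (⊤ : Subgroup H) ⊓ stabilizer H y := by rw [h]; trivial
      exact this.2
  rw [finsum_congr h4] at h1
  have h5 : (∑ᶠ y : Y, Set.indicator {y : Y | ∀ h : H, h • y = y} (fun _ => (Nat.card H : ℤ) * ζ H) y)
      = (Nat.card {y : Y // ∀ h : H, h • y = y} : ℤ) * ((Nat.card H : ℤ) * ζ H) := by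
    rw [← finsum_mem_def]
    have h6 : (∑ᶠ y ∈ {y : Y | ∀ h : H, h • y = y}, ((Nat.card H : ℤ) * ζ H)) =
        (Set.ncard {y : Y | ∀ h : H, h • y = y} : ℤ) * ((Nat.card H : ℤ) * ζ H) := by
      rw [finsum_mem_eq_finite_toFinset_sum _ (Set.toFinite _), Finset.sum_const, nsmul_eq_mul,
        Set.ncard_eq_toFinset_card _ (Set.toFinite _)]
    rw [h6]
    rfl
  rw [h5] at h1
  have h6 : (Nat.card H : ℤ) ≠ 0 := by
    have : 0 < Nat.card H := Nat.card_pos
    omega
  apply mul_left_cancel₀ h6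
  rw [h1]
  ring

theorem W_of_zero (ζ : ∀ (K : Type) [Group K], ℤ) (hζ : IsoInv ζ) (H Y : Type) [Group H] [Finite H]
    [MulAction H Y] [Finite Y] (h0 : ∀ K : Subgroup H, ζ ↥K = 0) : W ℓ ζ H Y = 0 := by
  have h1 := card_mul_W ℓ hζ H Y
  rw [finsum_congr (g := fun _ => (0 : ℤ)), finsum_zero] at h1
  · have h6 : (Nat.card H : ℤ) ≠ 0 := by
      have : 0 < Nat.card H := Nat.card_pos
      omega
    exact (mul_eq_zero.1 h1).resolve_left h6
  · intro σ
    rw [finsum_congr (g := fun _ => (0 : ℤ)), finsum_zero]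
    intro y
    rw [h0, mul_zero, mul_zero]

end W

section diff

variable (ℓ : ℕ) [hℓ : Fact ℓ.Prime] (k : Type) [Field k] [IsAlgClosed k] [CharP k ℓ]

/-- `d = z' - z` -/
def dz (K : Type) [Group K] : ℤ := zp ℓ K - zproj k K

theorem dz_iso : IsoInv (fun K _ => dz ℓ k K) := by
  intro K K' _ _ h
  change zp ℓ K - zproj k K = zp ℓ K' - zproj k K'
  have h1 : zp ℓ K = zp ℓ K' := zp_iso ℓ K K' h
  have h2 : zproj k K = zproj k K' := zproj_iso k K K' h
  rw [h1, h2]

variable {ℓ}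

theorem W_z_diff {P : Type} [Group P] [Finite P] (hP : IsPGroup ℓ P) (T : Subgroup (MulAut P)) :
    W ℓ (fun K _ => zproj k K) (FusionSystem.outq T) (Irr P) -
      W ℓ (fun K _ => zproj k K) (FusionSystem.outq T) (ConjClasses P) =
    W ℓ (fun K _ => dz ℓ k K) (FusionSystem.outq T) (ConjClasses P) -
      W ℓ (fun K _ => dz ℓ k K) (FusionSystem.outq T) (Irr P) := by
  have := irr_finite P
  have h1 : ∀ (Y : Type) [MulAction (FusionSystem.outq T) Y] [Finite Y],
      W ℓ (fun K _ => dz ℓ k K) (FusionSystem.outq T) Y =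
        W ℓ (fun K _ => zp ℓ K) (FusionSystem.outq T) Y -
        W ℓ (fun K _ => zproj k K) (FusionSystem.outq T) Y := fun Y _ _ =>
    W_sub ℓ (fun K _ => zp ℓ K) (fun K _ => zproj k K) (FusionSystem.outq T) Y
  have h2 : W ℓ (fun K _ => zp ℓ K) (FusionSystem.outq T) (Irr P) =
      W ℓ (fun K _ => zp ℓ K) (FusionSystem.outq T) (ConjClasses P) := by
    apply W_zp_congr
    intro g h hgh hg hh
    exact irr_fixed_out ℓ hP T g h hgh hg hh
  rw [h1, h1, h2]
  ring

variable {k}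

theorem card_subgroup_lt {H : Type} [Group H] [Finite H] {K : Subgroup H} (h : K ≠ ⊤) :
    Nat.card K < Nat.card H := by
  have h1 := K.card_mul_index
  have h2 : K.index ≠ 1 := by
    rwa [Ne, Subgroup.index_eq_one]
  have h3 : K.index ≠ 0 := Subgroup.index_ne_zero_of_finite
  have h4 : 1 < K.index := by omega
  have h5 : 0 < Nat.card K := Nat.card_pos
  calc Nat.card K = Nat.card K * 1 := (mul_one _).symm
    _ < Nat.card K * K.index := Nat.mul_lt_mul_of_pos_left h4 h5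
    _ = Nat.card H := h1

variable {G : Type} [Group G] [Finite G] {S : Subgroup G}

theorem m_sub_k_grp (hS : IsPGroup ℓ S) (hI : ¬ ℓ ∣ S.index) (V : Subgroup G) [V.Normal]
    (hV : IsPGroup ℓ V) (hVC : Subgroup.centralizer (V : Set G) ≤ V) (hO : OTriv ℓ (G ⧸ V))
    (h0 : ∀ (K : Type) [Group K] [Finite K], Nat.card K < V.index → dz ℓ k K = 0)
    (P : Subgroup S) (hP : upG P = V) :
    (grpFS S).m ℓ k - (grpFS S).k ℓ k =
      ((Nat.card {y : ConjClasses P // ∀ h : (grpFS S).OutF P, h • y = y} : ℤ) -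
        Nat.card {y : Irr P // ∀ h : (grpFS S).OutF P, h • y = y}) * dz ℓ k (G ⧸ V) := by
  have hVS : V ≤ S := V_le_S hS hI V hV
  have hcP : (grpFS S).Centric P := centric_V hVC hP
  have hOP : OTriv ℓ ((grpFS S).OutF P) := OTriv_congr (outV hVC hP) hO
  rw [m_sub_k ℓ k hS (grpFS S) (grpFS_saturated hS hI)]
  have hcard : Nat.card ((grpFS S).OutF P) = V.index :=
    (Nat.card_congr (outV hVC hP).toEquiv).symm
  let x0 : {P : Subgroup S // (grpFS S).Centric P ∧ (grpFS S).Radical ℓ P} := ⟨P, hcP, hOP⟩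
  let r := (grpFS S).subSetoid fun P => (grpFS S).Centric P ∧ (grpFS S).Radical ℓ P
  unfold clsum
  rw [finsum_eq_single _ (Quotient.mk r x0)]
  · have h1 : Quotient.out (Quotient.mk r x0) = x0 := by
      have h2 : (grpFS S).Conj (Quotient.out (Quotient.mk r x0)).1 x0.1 := Quotient.mk_out x0
      have h3 := conj_V hP ((grpFS S).conj_symm h2)
      exact Subtype.ext h3
    rw [h1]
    have hPp : IsPGroup ℓ P := hS.to_subgroup P
    have := irr_finite P
    change W ℓ (fun K _ => zproj k K) ((grpFS S).OutF P) (Irr P) -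
      W ℓ (fun K _ => zproj k K) ((grpFS S).OutF P) (ConjClasses P) = _
    rw [W_z_diff k hPp]
    have h4 : ∀ K : Subgroup ((grpFS S).OutF P), K ≠ ⊤ → dz ℓ k ↥K = 0 := fun K hK =>
      h0 _ (by rw [← hcard]; exact card_subgroup_lt hK)
    rw [W_of_min _ (dz_iso ℓ k) _ _ hOP h4, W_of_min _ (dz_iso ℓ k) _ _ hOP h4]
    have h5 : dz ℓ k (G ⧸ V) = dz ℓ k ((grpFS S).OutF P) := dz_iso ℓ k _ _ ⟨outV hVC hP⟩
    rw [h5]
    ring
  · intro q hq
    set Q := Quotient.out q with hQ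
    have h1 : V ≤ upG Q.1 := V_le_of_CR hS V hVS Q.2.1 Q.2.2
    have h2 : upG Q.1 ≠ V := by
      intro h
      apply hq
      have h3 : Q.1 = P := up_injective (h.trans hP.symm)
      rw [← Quotient.out_eq q]
      apply Quotient.sound
      change (grpFS S).Conj Q.1 P
      rw [h3]
      exact (grpFS S).conj_refl P
    have h3 := card_outF_lt V hVC h1 h2
    have hQp : IsPGroup ℓ Q.1 := hS.to_subgroup Q.1
    have := irr_finite Q.1
    change W ℓ (fun K _ => zproj k K) ((grpFS S).OutF Q.1) (Irr Q.1) -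
      W ℓ (fun K _ => zproj k K) ((grpFS S).OutF Q.1) (ConjClasses Q.1) = 0
    rw [W_z_diff k hQp]
    have h4 : ∀ K : Subgroup ((grpFS S).OutF Q.1), dz ℓ k ↥K = 0 := fun K =>
      h0 _ (lt_of_le_of_lt (Nat.card_le_card_of_injective _ K.subtype_injective) h3)
    rw [W_of_zero _ (dz_iso ℓ k) _ _ h4, W_of_zero _ (dz_iso ℓ k) _ _ h4, sub_zero]

end diff

end Pool.FS95
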