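import Pool.Agent.LibFS95.Defs

/-!
# Irreducible characters of a commutative group
-/

set_option autoImplicit false
set_option linter.unusedSectionVars false

noncomputable section

namespace Pool.FS95

open MulAction

section irr

variable {P : Type} [Group P]

/-- the one-dimensional representation -/
def rep1 (f : P →* ℂˣ) : Representation ℂ P (Fin 1 → ℂ) where
  toFun x := (f x : ℂ) • LinearMap.id
  map_one' := by rw [map_one, Units.val_one, one_smul]; rfl
  map_mul' x y := by
    apply LinearMap.ext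
    intro v
    rw [map_mul, Units.val_mul]
    change ((f x : ℂ) * (f y : ℂ)) • v = (f x : ℂ) • ((f y : ℂ) • v)
    rw [mul_smul]

theorem rep1_apply (f : P →* ℂˣ) (x : P) (v : Fin 1 → ℂ) : rep1 f x v = (f x : ℂ) • v := rfl

theorem rep1_irr (f : P →* ℂˣ) : (rep1 f).IsIrreducible := by
  let e : Subrepresentation (rep1 f) ≃o Submodule ℂ (Fin 1 → ℂ) :=
    { toFun := fun s => s.toSubmodule
      invFun := fun s => ⟨s, fun g v hv => by rw [rep1_apply]; exact s.smul_mem _ hv⟩
      left_inv := fun s => rfl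
      right_inv := fun s => rfl
      map_rel_iff' := Iff.rfl }
  have h1 : IsSimpleModule ℂ (Fin 1 → ℂ) := by
    rw [isSimpleModule_iff_finrank_eq_one]
    simp
  have h2 : IsSimpleOrder (Submodule ℂ (Fin 1 → ℂ)) := (isSimpleModule_iff _ _).1 h1
  exact e.isSimpleOrder

theorem rep1_char (f : P →* ℂˣ) : (rep1 f).character = fun x => (f x : ℂ) := by
  funext x
  change LinearMap.trace ℂ (Fin 1 → ℂ) ((f x : ℂ) • LinearMap.id) = _
  rw [map_smul, LinearMap.trace_id]
  simp

/-- the character `f` -/
def irrOf (f : P →* ℂˣ) : Irr P :=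
  ⟨fun x => (f x : ℂ), 1, rep1 f, rep1_irr f, rep1_char f⟩

theorem irrOf_injective : Function.Injective (irrOf (P := P)) := by
  intro f g h
  apply MonoidHom.ext
  intro x
  exact Units.ext (congrFun (congrArg Subtype.val h) x)

theorem irrOf_surjective (hc : ∀ x y : P, x * y = y * x) : Function.Surjective (irrOf (P := P)) := by
  rintro ⟨χ, n, ρ, hρ, h⟩
  have : IsMulCommutative P := ⟨⟨hc⟩⟩
  have h1 : Module.finrank ℂ (Fin n → ℂ) = 1 :=
    Representation.IsIrreducible.finrank_eq_one_of_isMulCommutative ρ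
  have h2 : n = 1 := by simpa using h1
  subst h2
  have h3 : ∀ (x : P) (v : Fin 1 → ℂ), ρ x v = (ρ x (fun _ => 1) 0) • v := by
    intro x v
    have h4 : v = (v 0) • (fun _ => (1 : ℂ) : Fin 1 → ℂ) := by
      funext i
      rw [Subsingleton.elim i 0]
      change v 0 = v 0 * 1
      rw [mul_one]
    conv_lhs => rw [h4, map_smul]
    funext i
    rw [Subsingleton.elim i 0]
    change v 0 * ρ x (fun _ => 1) 0 = ρ x (fun _ => 1) 0 * v 0
    rw [mul_comm]
  have h5 : ∀ x, ρ x = (ρ x (fun _ => 1) 0) • LinearMap.id := fun x => LinearMap.ext (h3 x)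
  have h6 : ∀ x, χ x = ρ x (fun _ => 1) 0 := by
    intro x
    rw [← h]
    change LinearMap.trace ℂ (Fin 1 → ℂ) (ρ x) = _
    conv_lhs => rw [h5 x]
    rw [map_smul, LinearMap.trace_id]
    simp
  let g : P →* ℂ :=
    { toFun := χ
      map_one' := by rw [h6, map_one]; rfl
      map_mul' := fun x y => by
        rw [h6, h6, h6, map_mul]
        change ρ x (ρ y (fun _ => 1)) 0 = _
        rw [h3 x (ρ y (fun _ => 1))]
        rfl }
  refine ⟨g.toHomUnits, ?_⟩
  apply Subtype.ext
  rfl

end irr

end Pool.FS95
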