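import Mathlib

/-!
# The module `V = (𝔽_ℓ H / right K-invariant functions) × 𝔽_ℓ H`

Written multiplicatively: `Z = Multiplicative (ZMod ℓ)`, `A = (H → Z)`, `D : A → (K × H → Z)`,
`D a (κ, x) = a (x κ) / a x`, `V = range D × A`. The group `H` acts by left translations.
-/

set_option autoImplicit false
set_option linter.unusedSectionVars false

noncomputable section

namespace Pool.FS95

open scoped Classical in
attribute [local instance] Classical.propDecidable

/-- the cyclic group of order `ℓ` -/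
abbrev Zl (ℓ : ℕ) : Type := Multiplicative (ZMod ℓ)

section M

variable (ℓ : ℕ) (H : Type) [Group H]

/-- left translations on functions -/
def trA : H →* MulAut (H → Zl ℓ) where
  toFun h :=
    { toFun := fun a x => a (h⁻¹ * x)
      invFun := fun a x => a (h * x)
      left_inv := fun a => by funext x; change a (h⁻¹ * (h * x)) = a x; rw [inv_mul_cancel_left]
      right_inv := fun a => by funext x; change a (h * (h⁻¹ * x)) = a x; rw [mul_inv_cancel_left]
      map_mul' := fun a b => rfl }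
  map_one' := by
    apply MulEquiv.ext
    intro a
    funext x
    change a ((1 : H)⁻¹ * x) = a x
    rw [inv_one, one_mul]
  map_mul' g h := by
    apply MulEquiv.ext
    intro a
    funext x
    change a ((g * h)⁻¹ * x) = a (h⁻¹ * (g⁻¹ * x))
    rw [mul_inv_rev, mul_assoc]

variable {H} (K : Subgroup H)

/-- `D a (κ, x) = a (x κ) / a x` -/
def Dmap : (H → Zl ℓ) →* (K × H → Zl ℓ) where
  toFun a p := a (p.2 * p.1) / a p.2
  map_one' := by funext p; exact div_one _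
  map_mul' a b := by funext p; exact mul_div_mul_comm _ _ _ _

/-- `W = range D` -/
abbrev Wm : Type := ↥(Dmap ℓ K).range

/-- `V = W × A` -/
abbrev Mm : Type := Wm ℓ K × (H → Zl ℓ)

/-- `D` onto its range -/
def Dr : (H → Zl ℓ) →* Wm ℓ K := (Dmap ℓ K).rangeRestrict

theorem Dr_surjective : Function.Surjective (Dr ℓ K) := MonoidHom.rangeRestrict_surjective _

theorem Dr_coe (a : H → Zl ℓ) (p : K × H) : (Dr ℓ K a).1 p = a (p.2 * p.1) / a p.2 := rfl

/-- left translations on `W` -/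
def trW : H →* MulAut (Wm ℓ K) where
  toFun h :=
    { toFun := fun w => ⟨fun p => w.1 (p.1, h⁻¹ * p.2), by
        obtain ⟨a, ha⟩ := w.2
        refine ⟨trA ℓ H h a, ?_⟩
        funext p
        rw [← ha]
        change a (h⁻¹ * (p.2 * p.1)) / a (h⁻¹ * p.2) = a (h⁻¹ * p.2 * p.1) / a (h⁻¹ * p.2)
        rw [mul_assoc]⟩
      invFun := fun w => ⟨fun p => w.1 (p.1, h * p.2), by
        obtain ⟨a, ha⟩ := w.2
        refine ⟨trA ℓ H h⁻¹ a, ?_⟩
        funext p
        rw [← ha]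
        change a (h⁻¹⁻¹ * (p.2 * p.1)) / a (h⁻¹⁻¹ * p.2) = a (h * p.2 * p.1) / a (h * p.2)
        rw [inv_inv, mul_assoc]⟩
      left_inv := fun w => by
        apply Subtype.ext; funext p
        change w.1 (p.1, h⁻¹ * (h * p.2)) = w.1 p
        rw [inv_mul_cancel_left]
      right_inv := fun w => by
        apply Subtype.ext; funext p
        change w.1 (p.1, h * (h⁻¹ * p.2)) = w.1 p
        rw [mul_inv_cancel_left]
      map_mul' := fun v w => rfl }
  map_one' := by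
    apply MulEquiv.ext
    intro w
    apply Subtype.ext; funext p
    change w.1 (p.1, (1 : H)⁻¹ * p.2) = w.1 p
    rw [inv_one, one_mul]
  map_mul' g h := by
    apply MulEquiv.ext
    intro w
    apply Subtype.ext; funext p
    change w.1 (p.1, (g * h)⁻¹ * p.2) = w.1 (p.1, h⁻¹ * (g⁻¹ * p.2))
    rw [mul_inv_rev, mul_assoc]

/-- the action of `H` on `V` -/
def trM : H →* MulAut (Mm ℓ K) where
  toFun h := MulEquiv.prodCongr (trW ℓ K h) (trA ℓ H h)
  map_one' := by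
    apply MulEquiv.ext
    intro m
    change (trW ℓ K 1 m.1, trA ℓ H 1 m.2) = m
    rw [map_one, map_one]
    rfl
  map_mul' g h := by
    apply MulEquiv.ext
    intro m
    change (trW ℓ K (g * h) m.1, trA ℓ H (g * h) m.2) =
      (trW ℓ K g (trW ℓ K h m.1), trA ℓ H g (trA ℓ H h m.2))
    rw [map_mul, map_mul]
    rfl

theorem trM_apply (h : H) (m : Mm ℓ K) : trM ℓ K h m = (trW ℓ K h m.1, trA ℓ H h m.2) := rfl

theorem trW_Dr (h : H) (a : H → Zl ℓ) : trW ℓ K h (Dr ℓ K a) = Dr ℓ K (trA ℓ H h a) := by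
  apply Subtype.ext; funext p
  change a (h⁻¹ * p.2 * p.1) / a (h⁻¹ * p.2) = a (h⁻¹ * (p.2 * p.1)) / a (h⁻¹ * p.2)
  rw [mul_assoc]

/-- the action is faithful -/
theorem trM_injective [Fact ℓ.Prime] : Function.Injective (trM ℓ K) := by
  rw [injective_iff_map_eq_one]
  intro h hh
  let a : H → Zl ℓ := fun x => if x = 1 then Multiplicative.ofAdd 1 else 1
  have h1 : trM ℓ K h (1, a) = (1, a) := by rw [hh]; rfl
  have h2 : trA ℓ H h a = a := congrArg Prod.snd h1
  have h3 := congrFun h2 h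
  change a (h⁻¹ * h) = a h at h3
  rw [inv_mul_cancel] at h3
  by_contra hne
  have h4 : a 1 = Multiplicative.ofAdd 1 := if_pos rfl
  have h5 : a h = 1 := if_neg hne
  rw [h4, h5] at h3
  have h6 : (1 : ZMod ℓ) = 0 := h3
  exact one_ne_zero h6

theorem Zl_pow (z : Zl ℓ) : z ^ ℓ = 1 := by
  change Multiplicative.ofAdd (ℓ • Multiplicative.toAdd z) = 1
  rw [nsmul_eq_mul, ZMod.natCast_self, zero_mul]
  rfl

theorem Mm_pow (m : Mm ℓ K) : m ^ ℓ = 1 := by
  apply Prod.ext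
  · apply Subtype.ext
    funext p
    exact Zl_pow ℓ _
  · funext x
    exact Zl_pow ℓ _

/-! ### fixed points -/

theorem fix_W {w : Wm ℓ K} (hw : ∀ h, trW ℓ K h w = w) (κ : K) (x : H) :
    w.1 (κ, x) = w.1 (κ, 1) := by
  have h1 := congrFun (congrArg Subtype.val (hw x)) (κ, x)
  rw [← h1]
  change w.1 (κ, x⁻¹ * x) = _
  rw [inv_mul_cancel]

theorem fix_A {a : H → Zl ℓ} (ha : ∀ h, trA ℓ H h a = a) (x : H) : a x = a 1 := by
  have h1 := congrFun (ha x) x
  rw [← h1]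
  change a (x⁻¹ * x) = _
  rw [inv_mul_cancel]

theorem card_fixed [Fact ℓ.Prime] :
    Nat.card {m : Mm ℓ K // ∀ h, trM ℓ K h m = m} = Nat.card (K →* Zl ℓ) * ℓ := by
  have hW : ∀ m : {m : Mm ℓ K // ∀ h, trM ℓ K h m = m}, ∀ h, trW ℓ K h m.1.1 = m.1.1 :=
    fun m h => congrArg Prod.fst (m.2 h)
  have hA : ∀ m : {m : Mm ℓ K // ∀ h, trM ℓ K h m = m}, ∀ h, trA ℓ H h m.1.2 = m.1.2 :=
    fun m h => congrArg Prod.snd (m.2 h)
  let F : {m : Mm ℓ K // ∀ h, trM ℓ K h m = m} → (K →* Zl ℓ) × Zl ℓ := fun m =>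
    (MonoidHom.mk' (fun κ => m.1.1.1 (κ, 1)) (by
      intro κ κ'
      obtain ⟨a, ha⟩ := m.1.1.2
      have h1 : m.1.1.1 (κ', (κ : H)) = m.1.1.1 (κ', 1) := fix_W ℓ K (hW m) κ' κ
      change m.1.1.1 (κ * κ', 1) = m.1.1.1 (κ, 1) * m.1.1.1 (κ', 1)
      rw [← h1, ← ha]
      change a (1 * ((κ : H) * (κ' : H))) / a 1 = (a (1 * (κ : H)) / a 1) * (a ((κ : H) * (κ' : H)) / a (κ : H))
      rw [one_mul, one_mul, div_mul_div_comm, mul_comm (a 1), mul_div_mul_left_eq_div]),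
     m.1.2 1)
  have hF : Function.Bijective F := by
    constructor
    · intro m m' hmm
      have h1 : ∀ κ, m.1.1.1 (κ, 1) = m'.1.1.1 (κ, 1) := fun κ =>
        DFunLike.congr_fun (congrArg Prod.fst hmm) κ
      have h2 : m.1.2 1 = m'.1.2 1 := congrArg Prod.snd hmm
      apply Subtype.ext
      apply Prod.ext
      · apply Subtype.ext
        funext p
        rw [show p = (p.1, p.2) from rfl, fix_W ℓ K (hW m), fix_W ℓ K (hW m'), h1]
      · funext x
        rw [fix_A ℓ (hA m), fix_A ℓ (hA m'), h2]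
    · rintro ⟨φ, z⟩
      let kx : H → K := fun x => ⟨(Quotient.out (QuotientGroup.mk x : H ⧸ K))⁻¹ * x, by
        have h1 : (QuotientGroup.mk (Quotient.out (QuotientGroup.mk x : H ⧸ K)) : H ⧸ K) =
          QuotientGroup.mk x := Quotient.out_eq _
        exact QuotientGroup.eq.1 h1⟩
      have hkx : ∀ (x : H) (κ : K), kx (x * κ) = kx x * κ := by
        intro x κ
        apply Subtype.ext
        have h1 : (QuotientGroup.mk (x * (κ : H)) : H ⧸ K) = QuotientGroup.mk x := by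
          apply QuotientGroup.eq.2
          have : (x * (κ : H))⁻¹ * x = (κ : H)⁻¹ := by group
          rw [this]
          exact K.inv_mem κ.2
        change (Quotient.out (QuotientGroup.mk (x * (κ : H)) : H ⧸ K))⁻¹ * (x * κ) =
          ((Quotient.out (QuotientGroup.mk x : H ⧸ K))⁻¹ * x) * κ
        rw [h1, mul_assoc]
      let a : H → Zl ℓ := fun x => φ (kx x)
      have ha : ∀ (κ : K) (x : H), a (x * κ) / a x = φ κ := by
        intro κ x
        change φ (kx (x * κ)) / φ (kx x) = φ κ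
        rw [hkx, map_mul, mul_div_cancel_left]
      refine ⟨⟨(Dr ℓ K a, fun _ => z), fun h => ?_⟩, ?_⟩
      · apply Prod.ext
        · apply Subtype.ext
          funext p
          change a (h⁻¹ * p.2 * p.1) / a (h⁻¹ * p.2) = a (p.2 * p.1) / a p.2
          rw [ha, ha]
        · rfl
      · apply Prod.ext
        · apply MonoidHom.ext
          intro κ
          exact ha κ 1
        · rfl
  rw [Nat.card_congr (Equiv.ofBijective F hF), Nat.card_prod]
  congr 1
  change Nat.card (ZMod ℓ) = ℓ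
  exact Nat.card_zmod ℓ

/-! ### invariant homomorphisms to `ℂˣ` -/

variable (H) in
/-- the indicator function of `x` -/
def dl (x : H) : H → Zl ℓ := Pi.mulSingle x (Multiplicative.ofAdd 1)

theorem trA_dl (x : H) : trA ℓ H x (dl ℓ H 1) = dl ℓ H x := by
  funext y
  change dl ℓ H 1 (x⁻¹ * y) = dl ℓ H x y
  unfold dl
  by_cases hy : y = x
  · subst hy
    rw [inv_mul_cancel, Pi.mulSingle_eq_same, Pi.mulSingle_eq_same]
  · rw [Pi.mulSingle_eq_of_ne hy, Pi.mulSingle_eq_of_ne]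
    intro h
    apply hy
    have : y = x * (x⁻¹ * y) := by group
    rw [this, h, mul_one]

theorem hom_ext_A [Finite H] [Fact ℓ.Prime] {μ μ' : (H → Zl ℓ) →* ℂˣ}
    (hμ : ∀ h a, μ (trA ℓ H h a) = μ a) (hμ' : ∀ h a, μ' (trA ℓ H h a) = μ' a)
    (h1 : μ (dl ℓ H 1) = μ' (dl ℓ H 1)) : μ = μ' := by
  have := Fintype.ofFinite H
  apply MonoidHom.ext
  intro a
  have h2 : ∀ x, μ (dl ℓ H x) = μ' (dl ℓ H x) := fun x => by
    rw [← trA_dl, hμ, hμ', h1]
  have h3 : a = ∏ x, Pi.mulSingle x (a x) := (Finset.univ_prod_mulSingle a).symm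
  rw [h3, map_prod, map_prod]
  apply Finset.prod_congr rfl
  intro x _
  have h4 : a x = (Multiplicative.ofAdd (1 : ZMod ℓ)) ^ (Multiplicative.toAdd (a x)).val := by
    change a x = Multiplicative.ofAdd ((Multiplicative.toAdd (a x)).val • (1 : ZMod ℓ))
    rw [nsmul_eq_mul, mul_one, ZMod.natCast_zmod_val]
    rfl
  rw [h4, Pi.mulSingle_pow, map_pow, map_pow]
  congr 1
  exact h2 x

/-- the character of `Z` with value `ζ` -/
theorem exists_char [Fact ℓ.Prime] (ζ : ℂˣ) (hζ : ζ ^ ℓ = 1) :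
    ∃ χ : Zl ℓ →* ℂˣ, χ (Multiplicative.ofAdd 1) = ζ := by
  let f : ℤ →+ Additive ℂˣ := zmultiplesHom _ (Additive.ofMul ζ)
  have hf : f ℓ = 0 := by
    change (ℓ : ℤ) • Additive.ofMul ζ = 0
    rw [natCast_zsmul, ← ofMul_pow, hζ]
    rfl
  refine ⟨AddMonoidHom.toMultiplicativeLeft (ZMod.lift ℓ ⟨f, hf⟩), ?_⟩
  have h1 : (ZMod.lift ℓ ⟨f, hf⟩) ((1 : ℤ) : ZMod ℓ) = f 1 := ZMod.lift_coe ℓ _ 1
  rw [Int.cast_one] at h1
  change Additive.toMul ((ZMod.lift ℓ ⟨f, hf⟩) 1) = ζ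
  rw [h1]
  change Additive.toMul ((1 : ℤ) • Additive.ofMul ζ) = ζ
  rw [one_zsmul]
  rfl

theorem exists_hom_A [Finite H] [Fact ℓ.Prime] (ζ : ℂˣ) (hζ : ζ ^ ℓ = 1) :
    ∃ μ : (H → Zl ℓ) →* ℂˣ, (∀ h a, μ (trA ℓ H h a) = μ a) ∧ μ (dl ℓ H 1) = ζ ∧
      (ℓ ∣ Nat.card K → ∀ a, Dr ℓ K a = 1 → μ a = 1) := by
  have := Fintype.ofFinite H
  obtain ⟨χ, hχ⟩ := exists_char ℓ ζ hζ
  let μ : (H → Zl ℓ) →* ℂˣ :=
    { toFun := fun a => χ (∏ x, a x)
      map_one' := by simp
      map_mul' := fun a b => by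
        change χ (∏ x, (a x * b x)) = _
        rw [Finset.prod_mul_distrib, map_mul] }
  refine ⟨μ, fun h a => ?_, ?_, fun hK a ha => ?_⟩
  · change χ (∏ x, a (h⁻¹ * x)) = χ (∏ x, a x)
    congr 1
    exact Fintype.prod_equiv (Equiv.mulLeft h⁻¹) _ _ (fun x => rfl)
  · change χ (∏ x, dl ℓ H 1 x) = ζ
    unfold dl
    rw [Finset.prod_pi_mulSingle', if_pos (Finset.mem_univ _)]
    exact hχ
  · change χ (∏ x, a x) = 1
    have := Fintype.ofFinite K
    have := Fintype.ofFinite (H ⧸ K)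
    have h1 : ∀ (κ : K) (x : H), a (x * κ) = a x := by
      intro κ x
      have h2 := congrFun (congrArg Subtype.val ha) (κ, x)
      have h3 : a (x * κ) / a x = 1 := h2
      exact div_eq_one.1 h3
    have h2 : ∏ x, a x = ∏ p : (H ⧸ K) × K, a (Quotient.out p.1) := by
      refine Fintype.prod_equiv (Subgroup.groupEquivQuotientProdSubgroup (s := K)) _ _ ?_
      intro x
      have h3 : (Subgroup.groupEquivQuotientProdSubgroup (s := K) x).1 = (QuotientGroup.mk x : H ⧸ K) :=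
        rfl
      rw [h3]
      have h4 : (QuotientGroup.mk (Quotient.out (QuotientGroup.mk x : H ⧸ K)) : H ⧸ K) =
          QuotientGroup.mk x := Quotient.out_eq _
      have h5 := QuotientGroup.eq.1 h4
      have h6 := h1 ⟨_, h5⟩ (Quotient.out (QuotientGroup.mk x : H ⧸ K))
      rw [← h6]
      change a x = a (Quotient.out (QuotientGroup.mk x : H ⧸ K) *
        ((Quotient.out (QuotientGroup.mk x : H ⧸ K))⁻¹ * x))
      rw [mul_inv_cancel_left]
    rw [h2, Fintype.prod_prod_type]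
    have h3 : ∀ c : H ⧸ K, ∏ κ : K, a (Quotient.out (c, κ).1) = 1 := by
      intro c
      change ∏ κ : K, a (Quotient.out c) = 1
      rw [Finset.prod_const, Finset.card_univ, ← Nat.card_eq_fintype_card]
      obtain ⟨n, hn⟩ := hK
      rw [hn, pow_mul, Zl_pow, one_pow]
    rw [Finset.prod_congr rfl (fun c _ => h3 c), Finset.prod_const_one, map_one]

theorem card_inv_homs [Finite H] [Fact ℓ.Prime] (hK : ℓ ∣ Nat.card K) :
    Nat.card {f : Mm ℓ K →* ℂˣ // ∀ h m, f (trM ℓ K h m) = f m} = ℓ * ℓ := by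
  have hroot : ∀ (f : Mm ℓ K →* ℂˣ) (m : Mm ℓ K), f m ∈ rootsOfUnity ℓ ℂ := fun f m => by
    rw [mem_rootsOfUnity, ← map_pow, Mm_pow, map_one]
  let F : {f : Mm ℓ K →* ℂˣ // ∀ h m, f (trM ℓ K h m) = f m} →
      rootsOfUnity ℓ ℂ × rootsOfUnity ℓ ℂ := fun f =>
    (⟨f.1 (Dr ℓ K (dl ℓ H 1), 1), hroot _ _⟩, ⟨f.1 (1, dl ℓ H 1), hroot _ _⟩)
  have hF : Function.Bijective F := by
    constructor
    · intro f f' hff
      have e1 : f.1 (Dr ℓ K (dl ℓ H 1), 1) = f'.1 (Dr ℓ K (dl ℓ H 1), 1) :=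
        congrArg (fun p => (p.1 : ℂˣ)) hff
      have e2 : f.1 (1, dl ℓ H 1) = f'.1 (1, dl ℓ H 1) := congrArg (fun p => (p.2 : ℂˣ)) hff
      have i1 : ∀ g : {f : Mm ℓ K →* ℂˣ // ∀ h m, f (trM ℓ K h m) = f m}, ∀ h a,
          (g.1.comp ((MonoidHom.inl _ _).comp (Dr ℓ K))) (trA ℓ H h a) =
          (g.1.comp ((MonoidHom.inl _ _).comp (Dr ℓ K))) a := by
        intro g h a
        change g.1 (Dr ℓ K (trA ℓ H h a), 1) = g.1 (Dr ℓ K a, 1)
        have h3 := g.2 h (Dr ℓ K a, 1)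
        rw [trM_apply] at h3
        rw [← trW_Dr, ← h3]
        congr 1
      have i2 : ∀ g : {f : Mm ℓ K →* ℂˣ // ∀ h m, f (trM ℓ K h m) = f m}, ∀ h a,
          (g.1.comp (MonoidHom.inr _ _)) (trA ℓ H h a) = (g.1.comp (MonoidHom.inr _ _)) a := by
        intro g h a
        change g.1 (1, trA ℓ H h a) = g.1 (1, a)
        have h3 := g.2 h (1, a)
        rw [trM_apply] at h3
        rw [← h3]
        congr 1
      have j1 := hom_ext_A ℓ (i1 f) (i1 f') e1
      have j2 := hom_ext_A ℓ (i2 f) (i2 f') e2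
      apply Subtype.ext
      apply MonoidHom.ext
      rintro ⟨w, a⟩
      obtain ⟨b, rfl⟩ := Dr_surjective ℓ K w
      have h4 : ((Dr ℓ K b, a) : Mm ℓ K) = (Dr ℓ K b, 1) * (1, a) := by
        rw [Prod.mk_mul_mk, mul_one, one_mul]
      have h5 : f.1 (Dr ℓ K b, 1) = f'.1 (Dr ℓ K b, 1) := DFunLike.congr_fun j1 b
      have h6 : f.1 (1, a) = f'.1 (1, a) := DFunLike.congr_fun j2 a
      rw [h4, map_mul, map_mul, h5, h6]
    · rintro ⟨⟨ζ1, h1⟩, ⟨ζ2, h2⟩⟩
      obtain ⟨μ1, a1, b1, c1⟩ := exists_hom_A ℓ K ζ1 ((mem_rootsOfUnity _ _).1 h1)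
      obtain ⟨μ2, a2, b2, c2⟩ := exists_hom_A ℓ K ζ2 ((mem_rootsOfUnity _ _).1 h2)
      have hker : (Dr ℓ K).ker ≤ μ1.ker := fun a ha => c1 hK a ha
      let ν : Wm ℓ K →* ℂˣ := (MonoidHom.liftOfSurjective (Dr ℓ K) (Dr_surjective ℓ K)) ⟨μ1, hker⟩
      have hν : ∀ a, ν (Dr ℓ K a) = μ1 a := fun a =>
        MonoidHom.liftOfRightInverse_comp_apply _ _ _ ⟨μ1, hker⟩ a
      refine ⟨⟨ν.coprod μ2, ?_⟩, ?_⟩
      · rintro h ⟨w, a⟩
        obtain ⟨b, rfl⟩ := Dr_surjective ℓ K w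
        rw [trM_apply, MonoidHom.coprod_apply, MonoidHom.coprod_apply, trW_Dr, hν, hν, a1, a2]
      · apply Prod.ext
        · apply Subtype.ext
          change (ν.coprod μ2) (Dr ℓ K (dl ℓ H 1), 1) = ζ1
          rw [MonoidHom.coprod_apply, hν, b1, map_one, mul_one]
        · apply Subtype.ext
          change (ν.coprod μ2) (1, dl ℓ H 1) = ζ2
          rw [MonoidHom.coprod_apply, b2, map_one, one_mul]
  rw [Nat.card_congr (Equiv.ofBijective F hF), Nat.card_prod]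
  have : NeZero ℓ := ⟨(Fact.out : ℓ.Prime).ne_zero⟩
  rw [Complex.card_rootsOfUnity]

end M

end Pool.FS95
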