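import Pool.Agent.LibFG56.F
import Pool.Agent.LibFG56.I

/-!
# The fusion system of `V ⋊ H`, `V` commutative, `H` faithful on `V`
-/

set_option autoImplicit false
set_option linter.unusedSectionVars false

noncomputable section

namespace Pool.FS95

open MulAction

section sd

variable {M H : Type} [CommGroup M] [Group H] (φ : H →* MulAut M)

/-- the normal subgroup `V` -/
abbrev VV : Subgroup (M ⋊[φ] H) := (SemidirectProduct.rightHom (φ := φ)).ker

theorem mem_VV {g : M ⋊[φ] H} : g ∈ VV φ ↔ g.right = 1 := Iff.rfl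

theorem inl_mem_VV (m : M) : (SemidirectProduct.inl m : M ⋊[φ] H) ∈ VV φ := rfl

theorem eq_inl_of_mem_VV {g : M ⋊[φ] H} (hg : g ∈ VV φ) : g = SemidirectProduct.inl g.left := by
  apply SemidirectProduct.ext
  · rfl
  · exact hg

theorem conj_inl (g : M ⋊[φ] H) (m : M) :
    g * SemidirectProduct.inl m * g⁻¹ = SemidirectProduct.inl (φ g.right m) := by
  apply SemidirectProduct.ext
  · simp only [SemidirectProduct.mul_left, SemidirectProduct.left_inl, SemidirectProduct.inv_left,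
      SemidirectProduct.mul_right, SemidirectProduct.right_inl, mul_one]
    have h1 : (φ g.right) ((φ g.right⁻¹) g.left⁻¹) = g.left⁻¹ := by
      rw [← MulAut.mul_apply, ← map_mul, mul_inv_cancel, map_one]; rfl
    rw [h1, mul_comm g.left, mul_inv_cancel_right]
  · simp

theorem centralizer_VV (hφ : Function.Injective φ) :
    Subgroup.centralizer (VV φ : Set (M ⋊[φ] H)) ≤ VV φ := by
  intro g hg
  have h1 : φ g.right = 1 := by
    apply MulEquiv.ext
    intro m
    have h2 := Subgroup.mem_centralizer_iff.1 hg _ (inl_mem_VV φ m)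
    have h3 := conj_inl φ g m
    rw [← h2, mul_inv_cancel_right] at h3
    exact (SemidirectProduct.inl_injective h3).symm
  exact hφ (h1.trans (map_one φ).symm)

/-- `G/V ≅ H` -/
def quotVV : (M ⋊[φ] H) ⧸ VV φ ≃* H :=
  QuotientGroup.quotientKerEquivOfSurjective _ SemidirectProduct.rightHom_surjective

/-- `M ≅ V` -/
def eVV : M ≃* VV φ where
  toFun m := ⟨SemidirectProduct.inl m, inl_mem_VV φ m⟩
  invFun g := g.1.left
  left_inv m := rfl
  right_inv g := Subtype.ext (eq_inl_of_mem_VV φ g.2).symm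
  map_mul' m m' := Subtype.ext (map_mul _ m m')

variable [Finite M] [Finite H]

instance : Finite (M ⋊[φ] H) :=
  Finite.of_equiv (M × H) (SemidirectProduct.equivProd (φ := φ)).symm

theorem isPGroup_VV {ℓ : ℕ} (hM : IsPGroup ℓ M) : IsPGroup ℓ (VV φ) := hM.of_equiv (eVV φ)

theorem index_VV : (VV φ).index = Nat.card H := Nat.card_congr (quotVV φ).toEquiv

variable {S : Subgroup (M ⋊[φ] H)} {P : Subgroup S} (hP : upG P = VV φ)

include hP in
theorem inl_mem_P (m : M) : (SemidirectProduct.inl m : M ⋊[φ] H) ∈ upG P := by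
  rw [hP]; exact inl_mem_VV φ m

/-- `M ≅ P` -/
def eP : M ≃* P where
  toFun m := ⟨⟨SemidirectProduct.inl m, (mem_up.1 (inl_mem_P φ hP m)).1⟩,
    (mem_up.1 (inl_mem_P φ hP m)).2⟩
  invFun x := ((x : S) : M ⋊[φ] H).left
  left_inv m := rfl
  right_inv x := P_ext (eq_inl_of_mem_VV φ (by rw [← hP]; exact coe_mem_up.2 x.2)).symm
  map_mul' m m' := P_ext (map_mul _ m m')

theorem eP_coe (m : M) : ((eP φ hP m : S) : M ⋊[φ] H) = SemidirectProduct.inl m := rfl

theorem nAut_eP (g : NG P) (m : M) :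
    nAut P g (eP φ hP m) = eP φ hP (φ (g : M ⋊[φ] H).right m) := by
  apply P_ext
  rw [nAut_apply, eP_coe, eP_coe, conj_inl]

include hP in
theorem P_comm (x y : P) : x * y = y * x := by
  obtain ⟨m, rfl⟩ := (eP φ hP).surjective x
  obtain ⟨m', rfl⟩ := (eP φ hP).surjective y
  rw [← map_mul, mul_comm, map_mul]

include hP in
theorem exists_NG (h : H) : ∃ g : NG P, (g : M ⋊[φ] H).right = h := by
  have h1 : NG P = ⊤ := NG_V hP
  exact ⟨⟨SemidirectProduct.inr h, by rw [h1]; trivial⟩, rfl⟩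

theorem fix_iff {Y : Type} [MulAction (MulAut P) Y] [InnTriv P Y] (y : Y) :
    (∀ h : (grpFS S).OutF P, h • y = y) ↔ ∀ g : NG P, nAut P g • y = y := by
  constructor
  · intro h g
    exact h (nOut P g)
  · intro h α
    obtain ⟨g, rfl⟩ := nOut_surjective P α
    exact h g

include hP in
theorem card_fix_cl : Nat.card {y : ConjClasses P // ∀ h : (grpFS S).OutF P, h • y = y} =
    Nat.card {m : M // ∀ h, φ h m = m} := by
  let F : {m : M // ∀ h, φ h m = m} →
      {y : ConjClasses P // ∀ h : (grpFS S).OutF P, h • y = y} := fun m =>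
    ⟨ConjClasses.mk (eP φ hP m.1), (fix_iff φ _).2 fun g => by
      rw [smul_mk, nAut_eP, m.2]⟩
  have hmk : ∀ x y : P, ConjClasses.mk x = ConjClasses.mk y → x = y := by
    intro x y hxy
    rw [ConjClasses.mk_eq_mk_iff_isConj, isConj_iff] at hxy
    obtain ⟨c, hc⟩ := hxy
    rw [P_comm φ hP c x, mul_inv_cancel_right] at hc
    exact hc
  refine (Nat.card_congr (Equiv.ofBijective F ⟨?_, ?_⟩)).symm
  · intro m m' hmm
    apply Subtype.ext
    exact (eP φ hP).injective (hmk _ _ (congrArg Subtype.val hmm))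
  · rintro ⟨y, hy⟩
    obtain ⟨x, rfl⟩ := ConjClasses.mk_surjective y
    obtain ⟨m, rfl⟩ := (eP φ hP).surjective x
    refine ⟨⟨m, fun h => ?_⟩, rfl⟩
    obtain ⟨g, hg⟩ := exists_NG φ hP h
    have h1 := (fix_iff φ _).1 hy g
    rw [smul_mk, nAut_eP, hg] at h1
    exact (eP φ hP).injective (hmk _ _ h1)

include hP in
theorem card_fix_irr : Nat.card {y : Irr P // ∀ h : (grpFS S).OutF P, h • y = y} =
    Nat.card {f : M →* ℂˣ // ∀ h m, f (φ h m) = f m} := by
  have key : ∀ f : P →* ℂˣ, (∀ h : (grpFS S).OutF P, h • irrOf f = irrOf f) ↔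
      ∀ (h : H) (m : M), f (eP φ hP (φ h m)) = f (eP φ hP m) := by
    intro f
    rw [fix_iff]
    constructor
    · intro h1 h m
      obtain ⟨g, hg⟩ := exists_NG φ hP h
      have h2 := congrFun (congrArg Subtype.val (h1 g)) (nAut P g (eP φ hP m))
      have h3 : (f ((nAut P g)⁻¹ (nAut P g (eP φ hP m))) : ℂ) = f (nAut P g (eP φ hP m)) := h2
      rw [MulAut.inv_apply_self, nAut_eP, hg] at h3
      exact (Units.ext h3).symm
    · intro h1 g
      apply Subtype.ext
      funext x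
      change (f ((nAut P g)⁻¹ x) : ℂ) = f x
      obtain ⟨m, hm⟩ := (eP φ hP).surjective ((nAut P g)⁻¹ x)
      have h2 : x = nAut P g (eP φ hP m) := by rw [hm, MulAut.apply_inv_self]
      rw [← hm, h2, nAut_eP, h1]
  let F : {f : M →* ℂˣ // ∀ h m, f (φ h m) = f m} →
      {y : Irr P // ∀ h : (grpFS S).OutF P, h • y = y} := fun f =>
    ⟨irrOf (f.1.comp (eP φ hP).symm.toMonoidHom), (key _).2 fun h m => by
      change f.1 ((eP φ hP).symm (eP φ hP (φ h m))) = f.1 ((eP φ hP).symm (eP φ hP m))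
      rw [MulEquiv.symm_apply_apply, MulEquiv.symm_apply_apply, f.2]⟩
  refine (Nat.card_congr (Equiv.ofBijective F ⟨?_, ?_⟩)).symm
  · intro f f' hff
    apply Subtype.ext
    apply MonoidHom.ext
    intro m
    have h1 := irrOf_injective (congrArg Subtype.val hff)
    have h2 := DFunLike.congr_fun h1 (eP φ hP m)
    change f.1 ((eP φ hP).symm (eP φ hP m)) = f'.1 ((eP φ hP).symm (eP φ hP m)) at h2
    rwa [MulEquiv.symm_apply_apply] at h2
  · rintro ⟨y, hy⟩
    obtain ⟨f, rfl⟩ := irrOf_surjective (P_comm φ hP) y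
    refine ⟨⟨f.comp (eP φ hP).toMonoidHom, fun h m => (key f).1 hy h m⟩, ?_⟩
    apply Subtype.ext
    change irrOf ((f.comp (eP φ hP).toMonoidHom).comp (eP φ hP).symm.toMonoidHom) = irrOf f
    congr 1
    apply MonoidHom.ext
    intro x
    change f (eP φ hP ((eP φ hP).symm x)) = f x
    rw [MulEquiv.apply_symm_apply]

end sd

/-- `m(F) - k(F)` for `F = F_T(M ⋊ H)`, `T` a Sylow subgroup. -/
theorem m_sub_k_semi (ℓ : ℕ) [Fact ℓ.Prime] (k : Type) [Field k] [IsAlgClosed k] [CharP k ℓ]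
    {M H : Type} [CommGroup M] [Group H] [Finite M] [Finite H] (φ : H →* MulAut M)
    (hφ : Function.Injective φ) (hM : IsPGroup ℓ M) (hO : OTriv ℓ H)
    (h0 : ∀ (K : Type) [Group K] [Finite K], Nat.card K < Nat.card H → dz ℓ k K = 0)
    (T : Sylow ℓ (M ⋊[φ] H)) :
    (grpFS (T : Subgroup (M ⋊[φ] H))).m ℓ k - (grpFS (T : Subgroup (M ⋊[φ] H))).k ℓ k =
      ((Nat.card {m : M // ∀ h, φ h m = m} : ℤ) -
        Nat.card {f : M →* ℂˣ // ∀ h m, f (φ h m) = f m}) * dz ℓ k H := by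
  have hT : IsPGroup ℓ (T : Subgroup (M ⋊[φ] H)) := T.isPGroup'
  have hI : ¬ ℓ ∣ (T : Subgroup (M ⋊[φ] H)).index := T.not_dvd_index
  have hV : IsPGroup ℓ (VV φ) := isPGroup_VV φ hM
  obtain ⟨P, hP⟩ := exists_up (V_le_S hT hI (VV φ) hV)
  have h1 := m_sub_k_grp (k := k) hT hI (VV φ) hV (centralizer_VV φ hφ)
    (OTriv_congr (quotVV φ).symm hO) (by rw [index_VV]; exact h0) P hP
  have h2 : dz ℓ k ((M ⋊[φ] H) ⧸ VV φ) = dz ℓ k H := dz_iso ℓ k _ _ ⟨quotVV φ⟩
  rw [h1, card_fix_cl φ hP, card_fix_irr φ hP, h2]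

end Pool.FS95
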