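import Pool.Agent.LibFG56.SD
import Pool.Agent.LibFG56.M

/-!
# Theorem (B): `m(F) = k(F)` for all saturated `F` iff Alperin's weight conjecture for all `G`
-/

set_option autoImplicit false
set_option linter.unusedSectionVars false

noncomputable section

namespace Pool.FS95

open MulAction

variable (ℓ : ℕ) [hℓ : Fact ℓ.Prime] (k : Type) [Field k] [IsAlgClosed k] [CharP k ℓ]

/-- Alperin's weight conjecture implies `m(F) = k(F)` -/
theorem m_eq_k_of_awc (hA : ∀ (G : Type) [Group G] [Finite G], AWCfor ℓ k G) {S : Type} [Group S]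
    [Finite S] (hS : IsPGroup ℓ S) (F : FusionSystem S) (hF : F.Saturated ℓ) :
    F.m ℓ k = F.k ℓ k := by
  rw [← sub_eq_zero, m_sub_k ℓ k hS F hF]
  have hz : ∀ (K : Type) [Group K] [Finite K], dz ℓ k K = 0 := fun K _ _ =>
    sub_eq_zero.2 (zp_eq_zproj_of_awc ℓ k K fun L => hA L)
  apply clsum_zero
  intro Q
  have hQp : IsPGroup ℓ Q.1 := hS.to_subgroup Q.1
  have := irr_finite Q.1
  change W ℓ (fun K _ => zproj k K) (F.OutF Q.1) (Irr Q.1) -
    W ℓ (fun K _ => zproj k K) (F.OutF Q.1) (ConjClasses Q.1) = 0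
  rw [W_z_diff k hQp]
  have h4 : ∀ K : Subgroup (F.OutF Q.1), dz ℓ k ↥K = 0 := fun K => hz K
  rw [W_of_zero _ (dz_iso ℓ k) _ _ h4, W_of_zero _ (dz_iso ℓ k) _ _ h4, sub_zero]

/-- `m(F) = k(F)` for the fusion systems of all `V ⋊ H`, `V` a faithful `𝔽_ℓ H`-module, implies
Alperin's weight conjecture -/
theorem awc_of_semi (h : ∀ (H V : Type) [Group H] [Finite H] [CommGroup V] [Finite V]
    (φ : H →* MulAut V), Function.Injective φ → (∀ v : V, v ^ ℓ = 1) →
    ∀ S : Sylow ℓ (V ⋊[φ] H), (grpFS (S : Subgroup (V ⋊[φ] H))).m ℓ k =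
      (grpFS (S : Subgroup (V ⋊[φ] H))).k ℓ k) :
    ∀ (G : Type) [Group G] [Finite G], AWCfor ℓ k G := by
  have key : ∀ (n : ℕ) (G : Type) [Group G] [Finite G], Nat.card G = n → AWCfor ℓ k G := by
    intro n
    induction n using Nat.strong_induction_on with
    | _ n ih =>
      intro G _ _ hn
      have ih' : ∀ (K : Type) [Group K] [Finite K], Nat.card K < Nat.card G → AWCfor ℓ k K :=
        fun K _ _ hK => ih _ (by rw [← hn]; exact hK) K rfl
      by_cases hO : OTriv ℓ G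
      · by_contra hne
        have hsub : ∀ K : Subgroup G, K ≠ ⊤ → AWCfor ℓ k ↥K := fun K hK =>
          ih' K (card_subgroup_lt hK)
        have h1 : dz ℓ k G = awcD ℓ k G := zp_sub_zproj_min ℓ k G hO hsub
        have h2 : dz ℓ k G ≠ 0 := by
          rw [h1]
          exact fun h3 => hne ((awcD_eq_zero_iff ℓ k G).1 h3)
        have h3 : ∀ (K : Type) [Group K] [Finite K], Nat.card K < Nat.card G → dz ℓ k K = 0 :=
          fun K _ _ hK => sub_eq_zero.2 (zp_eq_zproj_of_awc ℓ k K fun L =>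
            ih' L (lt_of_le_of_lt (Nat.card_le_card_of_injective _ L.subtype_injective) hK))
        have h4 : ∀ K : Subgroup G, ℓ ∣ Nat.card K →
            Nat.card (K →* Multiplicative (ZMod ℓ)) = ℓ := by
          intro K hK
          have hM : IsPGroup ℓ (Mm ℓ K) := fun m => ⟨1, by rw [pow_one]; exact Mm_pow ℓ K m⟩
          obtain ⟨T⟩ : Nonempty (Sylow ℓ (_ ⋊[trM ℓ K] G)) := Sylow.nonempty
          have hmk := m_sub_k_semi ℓ k (trM ℓ K) (trM_injective ℓ K) hM hO h3 T
          rw [h _ _ (trM ℓ K) (trM_injective ℓ K) (Mm_pow ℓ K) T, sub_self, card_fixed,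
            card_inv_homs ℓ K hK] at hmk
          have h5 := (mul_eq_zero.1 hmk.symm).resolve_right h2
          have h6 : (Nat.card (K →* Zl ℓ)) * ℓ = ℓ * ℓ := by
            exact_mod_cast sub_eq_zero.1 h5
          exact Nat.eq_of_mul_eq_mul_right hℓ.out.pos h6
        obtain ⟨N, hN, a, b, c⟩ := exists_nilp ℓ G h4
        exact h2 (sub_eq_zero.2 (zp_eq_zproj_of_nilp ℓ k G N a b c))
      · unfold OTriv at hO
        push Not at hO
        obtain ⟨O, hOn, hOp, hOne⟩ := hO
        apply awc_quot ℓ k G O hOp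
        apply ih'
        have h1 : Nat.card (G ⧸ O) * Nat.card O = Nat.card G := (Subgroup.card_eq_card_quotient_mul_card_subgroup O).symm
        have h2 : 1 < Nat.card O := (Subgroup.one_lt_card_iff_ne_bot O).2 hOne
        have h3 : 0 < Nat.card (G ⧸ O) := Nat.card_pos
        calc Nat.card (G ⧸ O) = Nat.card (G ⧸ O) * 1 := (mul_one _).symm
          _ < Nat.card (G ⧸ O) * Nat.card O := Nat.mul_lt_mul_of_pos_left h2 h3
          _ = Nat.card G := h1
  intro G _ _
  exact key _ G rfl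

/-- Theorem (B) -/
theorem m_eq_k_tfae : List.TFAE [
    ∀ (S : Type) [Group S] [Finite S] (F : FusionSystem S), IsPGroup ℓ S → F.Saturated ℓ →
      F.m ℓ k = F.k ℓ k,
    ∀ (H V : Type) [Group H] [Finite H] [CommGroup V] [Finite V] (φ : H →* MulAut V),
      Function.Injective φ → (∀ v : V, v ^ ℓ = 1) → ∀ S : Sylow ℓ (V ⋊[φ] H),
        (grpFS (S : Subgroup (V ⋊[φ] H))).m ℓ k = (grpFS (S : Subgroup (V ⋊[φ] H))).k ℓ k,
    ∀ (G : Type) [Group G] [Finite G], AWCfor ℓ k G] := by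
  tfae_have 1 → 2 := fun h H V _ _ _ _ φ _ _ S =>
    h _ _ S.isPGroup' (grpFS_saturated S.isPGroup' S.not_dvd_index)
  tfae_have 2 → 3 := fun h => awc_of_semi ℓ k h
  tfae_have 3 → 1 := fun h _ _ _ F hS hF => m_eq_k_of_awc ℓ k h hS F hF
  tfae_finish

end Pool.FS95
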